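import Pool.Agent.Y524H.Tab

set_option autoImplicit false

/-! Checks of the definitions: the twists about Lickorish's curves satisfy the braid relations
`T U T = U T U` for curves which meet once (so all of them have the same handedness), twists about
disjoint curves commute, and the separating twists are given by the chain relations
`(T_{a_0} T_{b_0})⁶ = T_1`, `(T_{a_0} T_{b_0} T_{c_0} T_{b_1})¹⁰ = T_2` and
`(T_{a_0} T_{b_0} T_{c_0} T_{b_1} T_{c_1} T_{b_2})¹⁴ = T_3`, so they have the same handedness as
well. -/

namespace Pool.Agent.Y524H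

/-- The number of intersection points of two of Lickorish's curves. -/
def meets : Lick → Lick → Bool
  | .inl i, .inr (.inl j) => i = j
  | .inr (.inl i), .inl j => i = j
  | .inr (.inl i), .inr (.inr j) => i = j.castSucc || i = j.succ
  | .inr (.inr j), .inr (.inl i) => i = j.castSucc || i = j.succ
  | _, _ => false

theorem braid (l l' : Lick) (h : meets l l' = true) :
    twist l * twist l' * twist l = twist l' * twist l * twist l' := by
  have h1 : ∀ l l' : Lick, meets l l' = true →
      tabW [(l, true), (l', true), (l, true)] = tabW [(l', true), (l, true), (l', true)] := by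
    decide +kernel
  have := ev_eq (h1 l l' h)
  simpa [ev, mul_assoc] using this

theorem commute (l l' : Lick) (h : meets l l' = false) :
    twist l * twist l' = twist l' * twist l := by
  have h1 : ∀ l l' : Lick, meets l l' = false →
      tabW [(l, true), (l', true)] = tabW [(l', true), (l, true)] := by
    decide +kernel
  have := ev_eq (h1 l l' h)
  simpa [ev] using this

theorem chain_one : (twist (.inl 0) * twist (.inr (.inl 0))) ^ 6 = sepTwist 1 := by
  have h : tabW (List.replicate 6 [lA 0, lB 0]).flatten = tabS 1 := by decide +kernel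
  have h1 : ev (List.replicate 6 [lA 0, lB 0]).flatten = sepTwist 1 :=
    (ev_isTab _).ext vv_gen (h ▸ sep_isTab 1)
  rw [← h1]
  simp [ev, pow_succ, mul_assoc]

theorem chain_two : (twist (.inl 0) * twist (.inr (.inl 0)) * twist (.inr (.inr 0)) *
    twist (.inr (.inl 1))) ^ 10 = sepTwist 2 := by
  have h : tabW (List.replicate 10 [lA 0, lB 0, lC 0, lB 1]).flatten = tabS 2 := by
    decide +kernel
  have h1 : ev (List.replicate 10 [lA 0, lB 0, lC 0, lB 1]).flatten = sepTwist 2 :=
    (ev_isTab _).ext vv_gen (h ▸ sep_isTab 2)
  rw [← h1]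
  simp [ev, pow_succ, mul_assoc]

theorem chain_three : (twist (.inl 0) * twist (.inr (.inl 0)) * twist (.inr (.inr 0)) *
    twist (.inr (.inl 1)) * twist (.inr (.inr 1)) * twist (.inr (.inl 2))) ^ 14 = sepTwist 3 := by
  have h : tabW (List.replicate 14 [lA 0, lB 0, lC 0, lB 1, lC 1, lB 2]).flatten = tabS 3 := by
    decide +kernel
  have h1 : ev (List.replicate 14 [lA 0, lB 0, lC 0, lB 1, lC 1, lB 2]).flatten = sepTwist 3 :=
    (ev_isTab _).ext vv_gen (h ▸ sep_isTab 3)
  rw [← h1]
  simp [ev, pow_succ, mul_assoc]

end Pool.Agent.Y524H
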