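import Pool.Agent.Y524H.Defs

set_option autoImplicit false

/-! Hurwitz moves and conjugation; commutators. -/

namespace Pool.Agent.Y524H

section Hurwitz

variable {M : Type} [Group M]

theorem HurwitzMove.closure_eq {u v : List M} (h : HurwitzMove u v) :
    Subgroup.closure {x | x ∈ u} = Subgroup.closure {x | x ∈ v} := by
  obtain ⟨l, r, s, t⟩ := h
  apply le_antisymm
  · rw [Subgroup.closure_le]
    intro x hx
    have hs : s ∈ Subgroup.closure {x | x ∈ l ++ (s * t * s⁻¹) :: s :: r} :=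
      Subgroup.subset_closure (by simp)
    have ht : s * t * s⁻¹ ∈ Subgroup.closure {x | x ∈ l ++ (s * t * s⁻¹) :: s :: r} :=
      Subgroup.subset_closure (by simp)
    simp only [List.mem_append, List.mem_cons, Set.mem_ofPred_eq] at hx
    rcases hx with hx | rfl | rfl | hx
    · exact Subgroup.subset_closure (by simp [hx])
    · exact hs
    · have := Subgroup.mul_mem _ (Subgroup.mul_mem _ (Subgroup.inv_mem _ hs) ht) hs
      simpa [mul_assoc] using this
    · exact Subgroup.subset_closure (by simp [hx])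
  · rw [Subgroup.closure_le]
    intro x hx
    have hs : s ∈ Subgroup.closure {x | x ∈ l ++ s :: t :: r} :=
      Subgroup.subset_closure (by simp)
    have ht : t ∈ Subgroup.closure {x | x ∈ l ++ s :: t :: r} :=
      Subgroup.subset_closure (by simp)
    simp only [List.mem_append, List.mem_cons, Set.mem_ofPred_eq] at hx
    rcases hx with hx | rfl | rfl | hx
    · exact Subgroup.subset_closure (by simp [hx])
    · exact Subgroup.mul_mem _ (Subgroup.mul_mem _ hs ht) (Subgroup.inv_mem _ hs)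
    · exact hs
    · exact Subgroup.subset_closure (by simp [hx])

theorem HurwitzEquiv.closure_eq {u v : List M} (h : HurwitzEquiv u v) :
    Subgroup.closure {x | x ∈ u} = Subgroup.closure {x | x ∈ v} := by
  induction h with
  | rel _ _ h => exact h.closure_eq
  | refl _ => rfl
  | symm _ _ _ h => exact h.symm
  | trans _ _ _ _ _ h1 h2 => exact h1.trans h2

theorem HurwitzEquiv.refl (u : List M) : HurwitzEquiv u u := Relation.EqvGen.refl u

theorem HurwitzEquiv.symm {u v : List M} (h : HurwitzEquiv u v) : HurwitzEquiv v u :=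
  Relation.EqvGen.symm _ _ h

theorem HurwitzEquiv.trans {u v w : List M} (h : HurwitzEquiv u v) (h' : HurwitzEquiv v w) :
    HurwitzEquiv u w := Relation.EqvGen.trans _ _ _ h h'

theorem HurwitzMove.append {u v : List M} (h : HurwitzMove u v) (p q : List M) :
    HurwitzMove (p ++ u ++ q) (p ++ v ++ q) := by
  obtain ⟨l, r, s, t⟩ := h
  have := HurwitzMove.mk (p ++ l) (r ++ q) s t
  simpa [List.append_assoc] using this

theorem HurwitzEquiv.append {u v : List M} (h : HurwitzEquiv u v) (p q : List M) :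
    HurwitzEquiv (p ++ u ++ q) (p ++ v ++ q) := by
  induction h with
  | rel _ _ h => exact Relation.EqvGen.rel _ _ (h.append p q)
  | refl _ => exact HurwitzEquiv.refl _
  | symm _ _ _ h => exact h.symm
  | trans _ _ _ _ _ h1 h2 => exact h1.trans h2

theorem HurwitzMove.map {N : Type} [Group N] (f : M →* N) {u v : List M} (h : HurwitzMove u v) :
    HurwitzMove (u.map f) (v.map f) := by
  obtain ⟨l, r, s, t⟩ := h
  have := HurwitzMove.mk (l.map f) (r.map f) (f s) (f t)
  simpa using this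

theorem HurwitzEquiv.map {N : Type} [Group N] (f : M →* N) {u v : List M}
    (h : HurwitzEquiv u v) : HurwitzEquiv (u.map f) (v.map f) := by
  induction h with
  | rel _ _ h => exact Relation.EqvGen.rel _ _ (h.map f)
  | refl _ => exact HurwitzEquiv.refl _
  | symm _ _ _ h => exact h.symm
  | trans _ _ _ _ _ h1 h2 => exact h1.trans h2

/-- Move an entry to the right. -/
theorem move_right (s : M) (r : List M) :
    HurwitzEquiv (s :: r) (r.map (MulAut.conj s) ++ [s]) := by
  induction r with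
  | nil => exact HurwitzEquiv.refl _
  | cons t r ih =>
    have h1 : HurwitzEquiv (s :: t :: r) ((s * t * s⁻¹) :: s :: r) :=
      Relation.EqvGen.rel _ _ (HurwitzMove.mk [] r s t)
    have h2 := ih.append [s * t * s⁻¹] []
    simp only [List.append_nil, List.singleton_append] at h2
    refine h1.trans (h2.trans ?_)
    simp only [List.map_cons, MulAut.conj_apply, List.cons_append]
    exact HurwitzEquiv.refl _

/-- Move an entry to the left. -/
theorem move_left (w : List M) (s : M) :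
    HurwitzEquiv (w ++ [s]) ((w.prod * s * w.prod⁻¹) :: w) := by
  induction w with
  | nil => simpa using HurwitzEquiv.refl [s]
  | cons t w ih =>
    have h2 := ih.append [t] []
    simp only [List.append_nil, List.singleton_append] at h2
    have h1 : HurwitzEquiv (t :: (w.prod * s * w.prod⁻¹) :: w)
        ((t * (w.prod * s * w.prod⁻¹) * t⁻¹) :: t :: w) :=
      Relation.EqvGen.rel _ _ (HurwitzMove.mk [] w t (w.prod * s * w.prod⁻¹))
    have h3 : t * (w.prod * s * w.prod⁻¹) * t⁻¹ = (t :: w).prod * s * ((t :: w).prod)⁻¹ := by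
      rw [List.prod_cons]; group
    rw [h3] at h1
    exact h2.trans h1

theorem conj_entry {u : List M} (hu : u.prod = 1) {s : M} (hs : s ∈ u) :
    HurwitzEquiv u (u.map (MulAut.conj s)) := by
  obtain ⟨l, r, rfl⟩ := List.append_of_mem hs
  have h1 := (move_right s r).append l []
  simp only [List.append_nil] at h1
  have h2 := move_left (l ++ r.map (MulAut.conj s)) s
  have hp : (l ++ r.map (MulAut.conj s)).prod = s⁻¹ := by
    rw [List.prod_append, List.prod_hom, MulAut.conj_apply]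
    rw [List.prod_append, List.prod_cons] at hu
    calc l.prod * (s * r.prod * s⁻¹) = (l.prod * (s * r.prod)) * s⁻¹ := by group
      _ = s⁻¹ := by rw [hu, one_mul]
  rw [hp] at h2
  have h3 := (move_right s l).append [] (r.map (MulAut.conj s))
  have e1 : l ++ (r.map (MulAut.conj s) ++ [s]) = l ++ r.map (MulAut.conj s) ++ [s] := by simp
  rw [e1] at h1
  have e2 : s⁻¹ * s * s⁻¹⁻¹ = s := by group
  rw [e2] at h2
  refine h1.trans (h2.trans ?_)
  have e3 : [] ++ (s :: l) ++ r.map (MulAut.conj s) = s :: (l ++ r.map (MulAut.conj s)) := by simp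
  have e4 : [] ++ (l.map (MulAut.conj s) ++ [s]) ++ r.map (MulAut.conj s) =
      (l ++ s :: r).map (MulAut.conj s) := by simp
  rw [e3, e4] at h3
  exact h3

theorem conj_mul_map (g h : M) (u : List M) :
    (u.map (MulAut.conj h)).map (MulAut.conj g) = u.map (MulAut.conj (g * h)) := by
  rw [List.map_map]
  congr 1
  funext x
  simp [MulAut.conj_apply, mul_assoc]

/-- The conjugation of a factorization of the identity by an element of the group generated by its
entries is realised by Hurwitz moves. -/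
theorem conj_closure {u : List M} (hu : u.prod = 1) {g : M}
    (hg : g ∈ Subgroup.closure {x | x ∈ u}) : HurwitzEquiv u (u.map (MulAut.conj g)) := by
  induction hg using Subgroup.closure_induction with
  | mem s hs => exact conj_entry hu hs
  | one =>
    have : u.map (MulAut.conj (1 : M)) = u := by simp
    rw [this]
    exact HurwitzEquiv.refl _
  | mul x y _ _ hx hy =>
    have h1 := hy.map (MulAut.conj x).toMonoidHom
    have h2 : HurwitzEquiv (u.map (MulAut.conj x)) ((u.map (MulAut.conj y)).map (MulAut.conj x)) :=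
      h1
    rw [conj_mul_map] at h2
    exact hx.trans h2
  | inv x _ hx =>
    have h1 := hx.map (MulAut.conj x⁻¹).toMonoidHom
    have h2 : HurwitzEquiv (u.map (MulAut.conj x⁻¹))
      ((u.map (MulAut.conj x)).map (MulAut.conj x⁻¹)) := h1
    rw [conj_mul_map] at h2
    have : u.map (MulAut.conj (x⁻¹ * x)) = u := by simp
    rw [this] at h2
    exact h2.symm

/-- The list of vanishing twists of a factorization conjugated by an element which normalises the
generated subgroup only. -/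
theorem closure_conj (u : List M) (g : M) :
    Subgroup.closure {x | x ∈ u.map (MulAut.conj g)} =
      (Subgroup.closure {x | x ∈ u}).map (MulAut.conj g).toMonoidHom := by
  rw [MonoidHom.map_closure]
  congr 1
  ext x
  simp only [Set.mem_ofPred_eq, List.mem_map, Set.mem_image]
  rfl

end Hurwitz

section Comm

variable {M : Type} [Group M]

/-- The commutator trick. -/
theorem comm_mem (L R H : Subgroup M) (θ : M) (hLR : ∀ x ∈ L, ∀ y ∈ R, x * y = y * x)
    (hθ : ∀ x ∈ L, θ * x * θ⁻¹ ∈ R) (hθH : θ ∈ H) (S : Set M) (hS : S ⊆ L)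
    (h1 : ∀ s ∈ S, s * θ * s⁻¹ ∈ H) (h2 : ∀ s ∈ S, ∀ t ∈ S, (s * t) * θ * (s * t)⁻¹ ∈ H) :
    ∀ x ∈ Subgroup.closure S, ∀ y ∈ Subgroup.closure S, x * y * x⁻¹ * y⁻¹ ∈ H := by
  have hsub : Subgroup.closure S ≤ L := (Subgroup.closure_le L).2 hS
  have hcomm : ∀ x ∈ L, ∀ y ∈ L, x * (θ * y * θ⁻¹) = (θ * y * θ⁻¹) * x := fun x hx y hy =>
    hLR x hx _ (hθ y hy)
  -- the elements `s (θ s θ⁻¹)⁻¹`
  have hs1 : ∀ s ∈ S, s * (θ * s * θ⁻¹)⁻¹ ∈ H := by
    intro s hs
    have := H.mul_mem (h1 s hs) (H.inv_mem hθH)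
    have e : s * (θ * s * θ⁻¹)⁻¹ = s * θ * s⁻¹ * θ⁻¹ := by group
    rw [e]
    exact this
  -- commutators of two members of `S`
  have hcc : ∀ s ∈ S, ∀ t ∈ S, s * t * s⁻¹ * t⁻¹ ∈ H := by
    intro s hs t ht
    have a1 : (s * t) * (θ * (s * t) * θ⁻¹)⁻¹ ∈ H := by
      have := H.mul_mem (h2 s hs t ht) (H.inv_mem hθH)
      have e : (s * t) * (θ * (s * t) * θ⁻¹)⁻¹ = s * t * θ * (s * t)⁻¹ * θ⁻¹ := by group
      rw [e]
      exact this
    have a2 : (s * (θ * s * θ⁻¹)⁻¹) * (t * (θ * t * θ⁻¹)⁻¹) ∈ H :=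
      H.mul_mem (hs1 s hs) (hs1 t ht)
    have c1 : (θ * s * θ⁻¹)⁻¹ * t = t * (θ * s * θ⁻¹)⁻¹ := by
      rw [inv_mul_eq_iff_eq_mul, ← mul_assoc, ← hcomm t (hS ht) s (hS hs), mul_inv_cancel_right]
    have a3 : (θ * s * θ⁻¹) * (θ * t * θ⁻¹) * (θ * s * θ⁻¹)⁻¹ * (θ * t * θ⁻¹)⁻¹ ∈ H := by
      have := H.mul_mem (H.inv_mem a1) a2
      have e : (s * (θ * s * θ⁻¹)⁻¹) * (t * (θ * t * θ⁻¹)⁻¹) =
          s * t * ((θ * s * θ⁻¹)⁻¹ * (θ * t * θ⁻¹)⁻¹) := by
        calc (s * (θ * s * θ⁻¹)⁻¹) * (t * (θ * t * θ⁻¹)⁻¹)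
            = s * ((θ * s * θ⁻¹)⁻¹ * t) * (θ * t * θ⁻¹)⁻¹ := by group
          _ = _ := by rw [c1]; group
      rw [e] at this
      have e2 : (s * t * (θ * (s * t) * θ⁻¹)⁻¹)⁻¹ * (s * t * ((θ * s * θ⁻¹)⁻¹ * (θ * t * θ⁻¹)⁻¹)) =
          (θ * s * θ⁻¹) * (θ * t * θ⁻¹) * (θ * s * θ⁻¹)⁻¹ * (θ * t * θ⁻¹)⁻¹ := by group
      rw [e2] at this
      exact this
    have := H.mul_mem (H.mul_mem (H.inv_mem hθH) a3) hθH
    have e : θ⁻¹ * ((θ * s * θ⁻¹) * (θ * t * θ⁻¹) * (θ * s * θ⁻¹)⁻¹ * (θ * t * θ⁻¹)⁻¹) * θ =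
      s * t * s⁻¹ * t⁻¹ := by group
    rw [e] at this
    exact this
  -- the closure of `S` normalises `H ⊓ L`
  let K : Subgroup M := H ⊓ L
  have hnorm : ∀ p ∈ Subgroup.closure S, ∀ k ∈ K, p * k * p⁻¹ ∈ K ∧ p⁻¹ * k * p ∈ K := by
    intro p hp
    induction hp using Subgroup.closure_induction with
    | mem s hs =>
      intro k hk
      have hkH : k ∈ H := hk.1
      have hkL : k ∈ L := hk.2
      have hsL := hS hs
      have c := hcomm k hkL s hsL
      constructor
      · refine ⟨?_, L.mul_mem (L.mul_mem hsL hkL) (L.inv_mem hsL)⟩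
        have := H.mul_mem (H.mul_mem (hs1 s hs) hkH) (H.inv_mem (hs1 s hs))
        have e : s * (θ * s * θ⁻¹)⁻¹ * k * (s * (θ * s * θ⁻¹)⁻¹)⁻¹ = s * k * s⁻¹ := by
          calc s * (θ * s * θ⁻¹)⁻¹ * k * (s * (θ * s * θ⁻¹)⁻¹)⁻¹
              = s * ((θ * s * θ⁻¹)⁻¹ * (k * (θ * s * θ⁻¹))) * s⁻¹ := by group
            _ = s * k * s⁻¹ := by rw [c]; group
        rw [e] at this
        exact this
      · refine ⟨?_, L.mul_mem (L.mul_mem (L.inv_mem hsL) hkL) hsL⟩
        have := H.mul_mem (H.mul_mem (H.inv_mem (hs1 s hs)) hkH) (hs1 s hs)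
        have c2 := hcomm (s⁻¹ * k * s) (L.mul_mem (L.mul_mem (L.inv_mem hsL) hkL) hsL) s hsL
        have e : (s * (θ * s * θ⁻¹)⁻¹)⁻¹ * k * (s * (θ * s * θ⁻¹)⁻¹) = s⁻¹ * k * s := by
          calc (s * (θ * s * θ⁻¹)⁻¹)⁻¹ * k * (s * (θ * s * θ⁻¹)⁻¹)
              = ((θ * s * θ⁻¹) * (s⁻¹ * k * s)) * (θ * s * θ⁻¹)⁻¹ := by group
            _ = s⁻¹ * k * s := by rw [← c2]; group
        rw [e] at this
        exact this
    | one => intro k hk; simpa using hk
    | mul x y _ _ hx hy =>
      intro k hk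
      constructor
      · have := (hx _ (hy k hk).1).1
        have e : x * (y * k * y⁻¹) * x⁻¹ = x * y * k * (x * y)⁻¹ := by group
        rw [e] at this
        exact this
      · have := (hy _ (hx k hk).2).2
        have e : y⁻¹ * (x⁻¹ * k * x) * y = (x * y)⁻¹ * k * (x * y) := by group
        rw [e] at this
        exact this
    | inv x _ hx =>
      intro k hk
      have := hx k hk
      rw [inv_inv]
      exact ⟨this.2, this.1⟩
  have hK : ∀ s ∈ S, ∀ t ∈ S, s * t * s⁻¹ * t⁻¹ ∈ K := fun s hs t ht =>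
    ⟨hcc s hs t ht, L.mul_mem (L.mul_mem (L.mul_mem (hS hs) (hS ht)) (L.inv_mem (hS hs)))
      (L.inv_mem (hS ht))⟩
  have step1 : ∀ x ∈ Subgroup.closure S, ∀ t ∈ S, x * t * x⁻¹ * t⁻¹ ∈ K := by
    intro x hx t ht
    induction hx using Subgroup.closure_induction with
    | mem s hs => exact hK s hs t ht
    | one => simp
    | mul x y hx' _ hx hy =>
      have := K.mul_mem (hnorm x hx' _ hy).1 hx
      have e : x * (y * t * y⁻¹ * t⁻¹) * x⁻¹ * (x * t * x⁻¹ * t⁻¹) =
        x * y * t * (x * y)⁻¹ * t⁻¹ := by group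
      rw [e] at this
      exact this
    | inv x hx' hx =>
      have := (hnorm x hx' _ (K.inv_mem hx)).2
      have e : x⁻¹ * (x * t * x⁻¹ * t⁻¹)⁻¹ * x = x⁻¹ * t * x⁻¹⁻¹ * t⁻¹ := by group
      rw [e] at this
      exact this
  intro x hx y hy
  have : x * y * x⁻¹ * y⁻¹ ∈ K := by
    induction hy using Subgroup.closure_induction with
    | mem t ht => exact step1 x hx t ht
    | one => simp
    | mul y z hy' _ hy hz =>
      have := K.mul_mem hy (hnorm y hy' _ hz).1
      have e : x * y * x⁻¹ * y⁻¹ * (y * (x * z * x⁻¹ * z⁻¹) * y⁻¹) =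
        x * (y * z) * x⁻¹ * (y * z)⁻¹ := by group
      rw [e] at this
      exact this
    | inv y hy' hy =>
      have := (hnorm y hy' _ (K.inv_mem hy)).2
      have e : y⁻¹ * (x * y * x⁻¹ * y⁻¹)⁻¹ * y = x * y⁻¹ * x⁻¹ * y⁻¹⁻¹ := by group
      rw [e] at this
      exact this
  exact this.1

end Comm

end Pool.Agent.Y524H
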