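import Pool.Agent.Y524H.Main

set_option autoImplicit false

/-! The converse and the undecidability theorem. -/

namespace Pool.Agent.Y524H

section

variable (rl : List (List (Fin 2 × Bool)))

/-- The generators of the quotient. -/
def pp (i : Fin 2) : PresentedGroup (Rel rl) := PresentedGroup.of i

/-- The stabiliser of `Φ_1`. -/
def St : Subgroup (MulAut Pi1) where
  carrier := {α | (Phi (pp rl) 1).comp α.toMonoidHom = Phi (pp rl) 1}
  mul_mem' := by
    intro α β hα hβ
    have hα' : (Phi (pp rl) 1).comp α.toMonoidHom = Phi (pp rl) 1 := hα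
    have hβ' : (Phi (pp rl) 1).comp β.toMonoidHom = Phi (pp rl) 1 := hβ
    apply MonoidHom.ext
    intro x
    have h1 := DFunLike.congr_fun hα' (β x)
    have h2 := DFunLike.congr_fun hβ' x
    exact h1.trans h2
  one_mem' := rfl
  inv_mem' := by
    intro α hα
    have hα' : (Phi (pp rl) 1).comp α.toMonoidHom = Phi (pp rl) 1 := hα
    apply MonoidHom.ext
    intro x
    have h1 := DFunLike.congr_fun hα' (α⁻¹ x)
    have h2 : (Phi (pp rl) 1).comp α.toMonoidHom (α⁻¹ x) = Phi (pp rl) 1 x := by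
      change Phi (pp rl) 1 (α (α⁻¹ x)) = _
      rw [MulAut.apply_inv_self]
    exact h1.symm.trans h2

theorem mem_St {α : MulAut Pi1} : α ∈ St rl ↔
    (Phi (pp rl) 1).comp α.toMonoidHom = Phi (pp rl) 1 := Iff.rfl

theorem St_of_table {α : MulAut Pi1} {T : List (List ℕ)} (hα : IsTab vv α T)
    (h : comp (PT []) T = PT []) : α ∈ St rl := stab_of_table _ hα h

theorem r0e_St : ∀ e ∈ r0e, dehn e ∈ (St rl).map qq := by
  have h : ∀ w : Word, ∀ T, tabW (w ++ [lA 0] ++ invWd w) = T → comp (PT []) T = PT [] →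
      dehn (0, w) ∈ (St rl).map qq := by
    intro w T hT hP
    rw [dehn_zero]
    exact Subgroup.mem_map_of_mem qq (St_of_table rl (ev_isTab _) (hT ▸ hP))
  intro e he
  simp only [r0e, List.mem_cons, List.not_mem_nil, or_false] at he
  rcases he with rfl | rfl | rfl | rfl | rfl | rfl | rfl | rfl
  · exact h _ _ tT0_ok (by decide +kernel)
  · exact h _ _ tT1_ok (by decide +kernel)
  · exact h _ _ tT2_ok (by decide +kernel)
  · exact h _ _ tT3_ok (by decide +kernel)
  · exact h _ _ tT4_ok (by decide +kernel)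
  · exact h _ _ tT5_ok (by decide +kernel)
  · exact h _ _ tT6_ok (by decide +kernel)
  · have h3 : dehn (3, []) = qq (sepTwist 3) := by
      unfold dehn
      have h : ((3 : Fin 4), ([] : Word)).1 ≠ 0 := by decide
      rw [if_neg h]
      simp only [ev, List.map_nil, List.prod_nil, one_mul, inv_one, mul_one]
      rfl
    rw [h3]
    exact Subgroup.mem_map_of_mem qq (St_of_table rl (sep_isTab 3) (by decide +kernel))

theorem lift_pp (w : FreeGroup (Fin 2)) :
    FreeGroup.lift (pp rl) w = PresentedGroup.mk (Rel rl) w := by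
  have : FreeGroup.lift (pp rl) = PresentedGroup.mk (Rel rl) := by
    apply FreeGroup.ext_hom
    intro i
    rw [FreeGroup.lift_apply_of]
    rfl
  rw [this]

theorem S0_St : ∀ s ∈ S0 rl, ev s ∈ St rl := by
  intro s hs
  simp only [S0, List.mem_append, List.mem_cons, List.not_mem_nil, or_false, List.mem_map] at hs
  rcases hs with (rfl | rfl | rfl | rfl) | ⟨w, hw, rfl⟩
  · exact St_of_table rl (tD0_ok ▸ ev_isTab _) (by decide +kernel)
  · exact St_of_table rl (tD1_ok ▸ ev_isTab _) (by decide +kernel)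
  · exact St_of_table rl (ev_isTab _) (by decide +kernel)
  · exact St_of_table rl (ev_isTab _) (by decide +kernel)
  · rw [mem_St, ev_Gw, Phi_Gh, lift_pp, PresentedGroup.one_of_mem, one_mul]
    exact ⟨w, hw, rfl⟩

theorem Sw_St : ∀ s ∈ Sw rl, ev s ∈ St rl := by
  intro s hs
  rcases List.mem_append.1 hs with hs | hs
  · exact S0_St rl s hs
  · rw [List.mem_flatMap] at hs
    obtain ⟨u, hu, hs⟩ := hs
    rw [List.mem_map] at hs
    obtain ⟨v, hv, rfl⟩ := hs
    rw [ev_append]
    exact (St rl).mul_mem (S0_St rl u hu) (S0_St rl v hv)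

theorem HH_le : HH rl ≤ (St rl).map qq := by
  rw [HH, Subgroup.closure_le]
  intro x hx
  simp only [Set.mem_ofPred_eq, List.mem_map] at hx
  obtain ⟨e, he, rfl⟩ := hx
  have h0 : ∀ e ∈ R0e, dehn e ∈ (St rl).map qq := by
    intro e he
    rw [R0e, List.mem_append] at he
    exact r0e_St rl e (he.elim id id)
  rcases List.mem_append.1 he with he | he
  · exact h0 e he
  · rw [List.mem_flatMap] at he
    obtain ⟨s, hs, he⟩ := he
    rw [List.mem_map] at he
    obtain ⟨e', he', rfl⟩ := he
    rw [dehn_cj, MulAut.conj_apply]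
    have h1 : qq (ev s) ∈ (St rl).map qq := Subgroup.mem_map_of_mem qq (Sw_St rl s hs)
    exact Subgroup.mul_mem _ (Subgroup.mul_mem _ h1 (h0 e' he')) (Subgroup.inv_mem _ h1)

/-- Elements of the group of the factorization. -/
theorem ll_mem {l : Lick} (hl : l ∈ Lset) (hs : [(l, true)] ∈ S0 rl) :
    qq (twist l) * (qq (twist (bar l)))⁻¹ ∈ HH rl := by
  have h1 := theta_conj_mem rl [(l, true)] (List.mem_append_left _ hs)
  rw [ev_single] at h1
  have h2 := (HH rl).mul_mem h1 ((HH rl).inv_mem (theta_mem rl))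
  have h3 : qq sg * qq (twist l) = qq (twist (bar l)) * qq sg := by
    rw [← map_mul, sg_bar l hl, map_mul]
  have h4 : qq (twist l) * qq sg * (qq (twist l))⁻¹ * (qq sg)⁻¹ =
      qq (twist l) * (qq sg * qq (twist l) * (qq sg)⁻¹)⁻¹ := by group
  rw [h4, h3, mul_inv_cancel_right] at h2
  exact h2

theorem comm_A4_G : ∀ k : Fin 2, ev (Gi k) * twist (.inl 4) = twist (.inl 4) * ev (Gi k) := by
  have h : ∀ k : Fin 2, tabW (Gi k ++ [lA 4]) = tabW ([lA 4] ++ Gi k) := by decide +kernel
  intro k
  have := ev_eq (h k)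
  rw [ev_append, ev_append] at this
  rwa [ev_single] at this

theorem comm_B4_G : ∀ k : Fin 2,
    ev (Gi k) * twist (.inr (.inl 4)) = twist (.inr (.inl 4)) * ev (Gi k) := by
  have h : ∀ k : Fin 2, tabW (Gi k ++ [lB 4]) = tabW ([lB 4] ++ Gi k) := by decide +kernel
  intro k
  have := ev_eq (h k)
  rw [ev_append, ev_append] at this
  rwa [ev_single] at this

theorem Gh_commute {g : MulAut Pi1} (h : ∀ k : Fin 2, ev (Gi k) * g = g * ev (Gi k))
    (z : FreeGroup (Fin 2)) : Commute (Gh z) g := by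
  have h1 : (MulAut.conj g).toMonoidHom.comp Gh = Gh := by
    apply FreeGroup.ext_hom
    intro k
    have e : Gh (FreeGroup.of k) = ev (Gi k) := by rw [Gh, FreeGroup.lift_apply_of]
    rw [MonoidHom.comp_apply, e]
    change g * ev (Gi k) * g⁻¹ = _
    rw [← h k, mul_inv_cancel_right]
  have h2 := DFunLike.congr_fun h1 z
  have h3 : g * Gh z * g⁻¹ = Gh z := h2
  have h4 : g * Gh z = Gh z * g := by
    rw [mul_inv_eq_iff_eq_mul] at h3
    exact h3
  exact h4.symm

theorem mem_of_equiv (w : List (Fin 2 × Bool))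
    (h : HurwitzEquiv ((tau rl).map dehn) (((tau rl).map (cj (dw w))).map dehn)) :
    FreeGroup.mk w ∈ Subgroup.normalClosure (Rel rl) := by
  have hcl := h.closure_eq
  rw [map_dehn_cj, closure_conj] at hcl
  change HH rl = (HH rl).map (MulAut.conj (qq (ev (dw w)))).toMonoidHom at hcl
  set z := FreeGroup.mk w with hz
  set A := twist (.inl 1) with hA
  set X := twist (.inr (.inl 1)) with hX
  set A' := twist (.inl 4) with hA'
  set X' := twist (.inr (.inl 4)) with hX'
  have hbA : bar (.inl 1) = .inl 4 := rfl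
  have hbX : bar (.inr (.inl 1)) = .inr (.inl 4) := rfl
  have mA : qq A * (qq A')⁻¹ ∈ HH rl := by
    have := ll_mem rl (l := .inl 1) (inL_mem _ (by decide)) (by simp [S0])
    rw [hbA] at this
    exact this
  have mX : qq X * (qq X')⁻¹ ∈ HH rl := by
    have := ll_mem rl (l := .inr (.inl 1)) (inL_mem _ (by decide)) (by simp [S0])
    rw [hbX] at this
    exact this
  -- commutation relations
  have cGA' : Commute (Gh z) A' := Gh_commute comm_A4_G z
  have cGX' : Commute (Gh z) X' := Gh_commute comm_B4_G z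
  have cGX : Commute (Gh z) X := Gh_commute (fun k => (XG k).symm) z
  have cAA' : Commute A A' := by
    have := comm_bar (.inl 1) (inL_mem _ (by decide)) (.inl 1) (inL_mem _ (by decide))
    exact this
  have cAX' : Commute A X' := by
    have := comm_bar (.inl 1) (inL_mem _ (by decide)) (.inr (.inl 1)) (inL_mem _ (by decide))
    exact this
  have cXA' : Commute X A' := by
    have := comm_bar (.inr (.inl 1)) (inL_mem _ (by decide)) (.inl 1) (inL_mem _ (by decide))
    exact this
  let Y : MulAut Pi1 := A'⁻¹ * X'⁻¹ * A'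
  have cGY : Commute (Gh z) Y :=
    (cGA'.inv_right.mul_right cGX'.inv_right).mul_right cGA'
  have cAY : Commute A Y := (cAA'.inv_right.mul_right cAX'.inv_right).mul_right cAA'
  have hT : qq (A * X * Y * A⁻¹) ∈ HH rl := by
    have h1 := (HH rl).mul_mem ((HH rl).mul_mem mA mX) ((HH rl).inv_mem mA)
    have h2 : qq A * (qq A')⁻¹ * (qq X * (qq X')⁻¹) * (qq A * (qq A')⁻¹)⁻¹ =
        qq (A * (A'⁻¹ * X) * X'⁻¹ * A' * A⁻¹) := by
      simp only [map_mul, map_inv]
      group
    rw [h2, ← cXA'.inv_right.eq] at h1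
    have h3 : A * (X * A'⁻¹) * X'⁻¹ * A' * A⁻¹ = A * X * Y * A⁻¹ := by
      simp only [Y, mul_assoc]
    rw [h3] at h1
    exact h1
  -- the conjugate
  set D := ev (dw w) with hD
  have hD' : D = Gh z * A * (Gh z)⁻¹ * A⁻¹ := ev_dw w
  have h4 : qq (D * (A * X * Y * A⁻¹) * D⁻¹) ∈ (St rl).map qq := by
    apply HH_le rl
    rw [hcl]
    refine ⟨qq (A * X * Y * A⁻¹), hT, ?_⟩
    change qq D * qq (A * X * Y * A⁻¹) * (qq D)⁻¹ = _
    simp only [map_mul, map_inv]
  obtain ⟨α, hα, hα2⟩ := h4
  obtain ⟨z0, hz0⟩ : ∃ z0, MulAut.conj z0 = α⁻¹ * (D * (A * X * Y * A⁻¹) * D⁻¹) := by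
    have := QuotientGroup.eq.1 hα2
    exact this
  -- evaluation
  have key : D * (A * X * Y * A⁻¹) * D⁻¹ * Gh z = Gh z * (A * X * A⁻¹) * Y := by
    rw [hD']
    have e1 : Gh z * A * (Gh z)⁻¹ * A⁻¹ * (A * X * Y * A⁻¹) * (Gh z * A * (Gh z)⁻¹ * A⁻¹)⁻¹ * Gh z
        = Gh z * A * (Gh z)⁻¹ * X * (Y * Gh z) * A⁻¹ := by group
    rw [e1, ← cGY.eq]
    have e2 : Gh z * A * (Gh z)⁻¹ * X * (Gh z * Y) * A⁻¹ =
        Gh z * A * (Gh z)⁻¹ * (X * Gh z) * (Y * A⁻¹) := by group
    rw [e2, ← cGX.eq, ← cAY.inv_left.eq]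
    group
  have t3 : A' (vv 3) = vv 3 := by
    have := twist_isTab (.inl 4) 3
    rw [this]
    have e : (tabL (.inl 4, true)).getD (3 % 12) [] = [6] := by decide +kernel
    rw [e]
    simp [den, dl]
  have t3' : X' (vv 3) = vv 3 := by
    have := twist_isTab (.inr (.inl 4)) 3
    rw [this]
    have e : (tabL (.inr (.inl 4), true)).getD (3 % 12) [] = [6] := by decide +kernel
    rw [e]
    simp [den, dl]
  have tY : Y (vv 3) = vv 3 := by
    have e1 : X'⁻¹ (vv 3) = vv 3 := by
      rw [MulAut.inv_apply, MulEquiv.symm_apply_eq, t3']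
    have e2 : A'⁻¹ (vv 3) = vv 3 := by
      rw [MulAut.inv_apply, MulEquiv.symm_apply_eq, t3]
    change A'⁻¹ (X'⁻¹ (A' (vv 3))) = vv 3
    rw [t3, e1, e2]
  have tAXA : (A * X * A⁻¹) (vv 3) = vv 3 * vv 2 * vv 3 := by
    have h1 : A * X * A⁻¹ = ev [lA 1, lB 1, lA 1 false] := by simp [ev, mul_assoc, hA, hX]
    rw [h1]
    have := ev_isTab [lA 1, lB 1, lA 1 false] 3
    rw [this]
    have e : (tabW [lA 1, lB 1, lA 1 false]).getD (3 % 12) [] = [6, 4, 6] := by decide +kernel
    rw [e]
    simp [den, dl, mul_assoc]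
  have hval : (D * (A * X * Y * A⁻¹) * D⁻¹) (Gh z (vv 3)) = Gh z (vv 3 * vv 2 * vv 3) := by
    have := DFunLike.congr_fun key (vv 3)
    rw [← MulAut.mul_apply, this, MulAut.mul_apply, tY, MulAut.mul_apply, tAXA]
  have hΦ : ∀ x, Phi (pp rl) 1 ((D * (A * X * Y * A⁻¹) * D⁻¹) x) =
      Phi (pp rl) 1 z0 * Phi (pp rl) 1 x * (Phi (pp rl) 1 z0)⁻¹ := by
    intro x
    have h5 : D * (A * X * Y * A⁻¹) * D⁻¹ = α * MulAut.conj z0 := by
      rw [hz0, mul_inv_cancel_left]
    rw [h5, MulAut.mul_apply]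
    have h6 := DFunLike.congr_fun hα (MulAut.conj z0 x)
    have h7 : Phi (pp rl) 1 (α (MulAut.conj z0 x)) = Phi (pp rl) 1 (MulAut.conj z0 x) := h6
    rw [h7, MulAut.conj_apply, map_mul, map_mul, map_inv]
  have h8 := hΦ (Gh z (vv 3))
  rw [hval] at h8
  have h9 : ∀ x, Phi (pp rl) 1 (Gh z x) = Phi (pp rl) (PresentedGroup.mk (Rel rl) z) x := by
    intro x
    have := DFunLike.congr_fun (Phi_Gh (pp rl) z 1) x
    rw [lift_pp, one_mul] at this
    exact this
  rw [h9, h9, map_mul, map_mul] at h8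
  have v3 : Phi (pp rl) (PresentedGroup.mk (Rel rl) z) (vv 3) = 1 := by
    rw [Phi_vv]; rfl
  have v2 : Phi (pp rl) (PresentedGroup.mk (Rel rl) z) (vv 2) =
      PresentedGroup.mk (Rel rl) z := by
    rw [Phi_vv]
    simp [PT, den, dl, yy]
  rw [v3, v2] at h8
  simp only [one_mul, mul_one, mul_inv_cancel] at h8
  exact (QuotientGroup.eq_one_iff _).1 h8

end

theorem dw_computable : Computable dw := by
  have h0 : Primrec (fun x : Fin 2 × Bool => if x.2 then Gi x.1 else invWd (Gi x.1)) :=
    Primrec.dom_finite _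
  have h : Primrec₂ (fun (_ : List (Fin 2 × Bool)) (x : Fin 2 × Bool) =>
      if x.2 then Gi x.1 else invWd (Gi x.1)) := h0.comp Primrec.snd
  have hG : Primrec Gw := Primrec.list_flatMap Primrec.id h
  have hf : Primrec (fun l : Lick × Bool => ((l.1, !l.2) : Lick × Bool)) := Primrec.dom_finite _
  have hi : Primrec invWd := by
    have h2 : Primrec₂ (fun (_ : Word) (l : Lick × Bool) => ((l.1, !l.2) : Lick × Bool)) :=
      hf.comp Primrec.snd
    exact Primrec.list_reverse.comp (Primrec.list_map Primrec.id h2)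
  have : Primrec dw := by
    unfold dw
    exact Primrec.list_append.comp (Primrec.list_append.comp (Primrec.list_append.comp hG
      (Primrec.const _)) (hi.comp hG)) (Primrec.const _)
  exact this.to_comp

theorem cjmap_computable (l : List Entry) : Computable (fun s : Word => l.map (cj s)) := by
  have h : Primrec₂ (fun (s : Word) (e : Entry) => cj s e) := by
    have : Primrec (fun p : Word × Entry => ((p.2.1, p.1 ++ p.2.2) : Entry)) :=
      Primrec.pair (Primrec.fst.comp Primrec.snd)
        (Primrec.list_append.comp Primrec.fst (Primrec.snd.comp Primrec.snd))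
    exact this
  exact (Primrec.list_map (Primrec.const l) h).to_comp

/-- Hurwitz equivalence with a certain fixed factorization is undecidable. -/
theorem undecidable_fixed : ∃ τ : List Entry, IsFactorization τ ∧
    ¬ ∃ f : List Entry → Bool, Computable f ∧ ∀ x : List Entry, IsFactorization x →
      (f x = true ↔ HurwitzEquiv (τ.map dehn) (x.map dehn)) := by
  obtain ⟨rl, W, hW, hn⟩ := word_problem_two
  refine ⟨tau rl, tau_isFactorization rl, ?_⟩
  rintro ⟨f, hf, hfx⟩
  apply hn
  have hc : Computable (fun n => f ((tau rl).map (cj (dw (W n))))) :=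
    hf.comp ((cjmap_computable (tau rl)).comp (dw_computable.comp hW))
  have hiff : ∀ n, f ((tau rl).map (cj (dw (W n)))) = true ↔
      FreeGroup.mk (W n) ∈ Subgroup.normalClosure
        {x : FreeGroup (Fin 2) | ∃ r ∈ rl, x = FreeGroup.mk r} := by
    intro n
    rw [hfx]
    · exact ⟨mem_of_equiv rl (W n), equiv_of_mem rl (W n)⟩
    · rw [IsFactorization, map_dehn_cj, List.prod_hom, tau_isFactorization rl, map_one]
  have hcp : ComputablePred (fun n => f ((tau rl).map (cj (dw (W n)))) = true) :=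
    ⟨fun n => inferInstance, hc.of_eq fun n => by simp⟩
  exact hcp.of_eq hiff

/-- Hurwitz equivalence of factorizations of the identity into positive Dehn twists in the mapping
class group of the closed surface of genus six is undecidable. -/
theorem undecidable : (∃ τ : List Entry, IsFactorization τ ∧
    ¬ ∃ f : List Entry → Bool, Computable f ∧ ∀ x : List Entry, IsFactorization x →
      (f x = true ↔ HurwitzEquiv (τ.map dehn) (x.map dehn))) ∧
    ¬ ∃ f : List Entry × List Entry → Bool, Computable f ∧ ∀ x y : List Entry,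
      IsFactorization x → IsFactorization y →
        (f (x, y) = true ↔ HurwitzEquiv (x.map dehn) (y.map dehn)) := by
  refine ⟨undecidable_fixed, ?_⟩
  rintro ⟨f, hf, hfx⟩
  obtain ⟨τ, hτ, hn⟩ := undecidable_fixed
  exact hn ⟨fun x => f (τ, x), hf.comp (Computable.pair (Computable.const τ) Computable.id),
    fun x hx => hfx τ x hτ hx⟩

end Pool.Agent.Y524H
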