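import Mathlib

set_option autoImplicit false

/-! Definitions: the closed surface group of genus six, Lickorish's Dehn twists, factorizations
and Hurwitz equivalence. -/

namespace Pool.Agent.Y524H

/-- Generators of the fundamental group of the closed surface of genus six: `(i, false)` is `a_i`
and `(i, true)` is `b_i`. -/
abbrev Gen : Type := Fin 6 × Bool

/-- The generator `a_i`. -/
def a (i : Fin 6) : FreeGroup Gen := FreeGroup.of (i, false)

/-- The generator `b_i`. -/
def b (i : Fin 6) : FreeGroup Gen := FreeGroup.of (i, true)

/-- The product `[a_0,b_0] ⋯ [a_{k-1},b_{k-1}]`. -/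
def zeta (k : ℕ) : FreeGroup Gen :=
  (((List.finRange 6).take k).map fun i => a i * b i * (a i)⁻¹ * (b i)⁻¹).prod

/-- The fundamental group of the closed oriented surface of genus six. -/
abbrev Pi1 : Type := PresentedGroup ({zeta 6} : Set (FreeGroup Gen))

/-- The group structure of the surface group. -/
instance pi1Group : Group Pi1 := inferInstance

/-- Names of Lickorish's curves: `a_i`, `b_i` (`i < 6`) and `c_i` (`i < 5`). -/
abbrev Lick : Type := Fin 6 ⊕ Fin 6 ⊕ Fin 5

/-- The curve `c_i`, homologous to `a_{i+1} - a_i`. -/
def c (i : Fin 5) : FreeGroup Gen := b i.castSucc * (a i.castSucc)⁻¹ * (b i.castSucc)⁻¹ * a i.succ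

/-- The images of the generators under the positive (`true`) or negative (`false`) Dehn twist about
one of Lickorish's curves. -/
def twistImage : Lick → Bool → Gen → FreeGroup Gen
  | .inl i, e => fun x => if x = (i, true) then b i * (if e then a i else (a i)⁻¹)
      else FreeGroup.of x
  | .inr (.inl i), e => fun x => if x = (i, false) then a i * (if e then (b i)⁻¹ else b i)
      else FreeGroup.of x
  | .inr (.inr i), e => fun x =>
      if x = (i.castSucc, true) then (if e then (c i)⁻¹ else c i) * b i.castSucc
      else if x = (i.succ, false) then
        (if e then (c i)⁻¹ else c i) * a i.succ * (if e then c i else (c i)⁻¹)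
      else if x = (i.succ, true) then b i.succ * (if e then c i else (c i)⁻¹)
      else FreeGroup.of x

/-- The images of the generators under the positive (`true`) or negative (`false`) Dehn twist about
the separating curve `[a_0,b_0] ⋯ [a_{k-1},b_{k-1}]`. -/
def sepImage (k : ℕ) (e : Bool) : Gen → FreeGroup Gen := fun x =>
  if x.1.val < k then
    (if e then (zeta k)⁻¹ else zeta k) * FreeGroup.of x * (if e then zeta k else (zeta k)⁻¹)
  else FreeGroup.of x

theorem twist_ok : ∀ l : Lick, ∀ e : Bool, FreeGroup.lift (twistImage l e) (zeta 6) = zeta 6 ∧
    ∀ x, FreeGroup.lift (twistImage l e) (twistImage l (!e) x) = FreeGroup.of x := by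
  decide +kernel

theorem sep_ok : ∀ k : Fin 4, ∀ e : Bool, FreeGroup.lift (sepImage k e) (zeta 6) = zeta 6 ∧
    ∀ x, FreeGroup.lift (sepImage k e) (sepImage k (!e) x) = FreeGroup.of x := by
  decide +kernel

/-- The endomorphism of the surface group given by images of the generators. -/
def endo (f : Gen → FreeGroup Gen) (hf : FreeGroup.lift f (zeta 6) = zeta 6) : Pi1 →* Pi1 :=
  PresentedGroup.toGroup (f := fun x => PresentedGroup.mk {zeta 6} (f x)) (by
    intro r hr
    rw [Set.mem_singleton_iff] at hr
    subst hr
    have h1 : FreeGroup.lift (fun x => PresentedGroup.mk {zeta 6} (f x)) =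
        (PresentedGroup.mk {zeta 6}).comp (FreeGroup.lift f) := by
      apply FreeGroup.ext_hom
      intro x
      simp
    rw [h1, MonoidHom.comp_apply, hf]
    exact (PresentedGroup.one_of_mem (by simp)))

theorem endo_mk (f : Gen → FreeGroup Gen) (hf : FreeGroup.lift f (zeta 6) = zeta 6)
    (w : FreeGroup Gen) :
    endo f hf (PresentedGroup.mk {zeta 6} w) = PresentedGroup.mk {zeta 6} (FreeGroup.lift f w) := by
  have h1 : (endo f hf).comp (PresentedGroup.mk {zeta 6}) =
      (PresentedGroup.mk {zeta 6}).comp (FreeGroup.lift f) := by
    apply FreeGroup.ext_hom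
    intro x
    simp only [MonoidHom.comp_apply, FreeGroup.lift_apply_of]
    exact PresentedGroup.toGroup.of _
  exact DFunLike.congr_fun h1 w

/-- The automorphism of the surface group given by images of the generators and the images of the
generators under the inverse. -/
def mkAut (f g : Gen → FreeGroup Gen) (hf : FreeGroup.lift f (zeta 6) = zeta 6)
    (hg : FreeGroup.lift g (zeta 6) = zeta 6) (hfg : ∀ x, FreeGroup.lift f (g x) = FreeGroup.of x)
    (hgf : ∀ x, FreeGroup.lift g (f x) = FreeGroup.of x) : MulAut Pi1 :=
  MonoidHom.toMulEquiv (endo f hf) (endo g hg)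
    (by
      apply PresentedGroup.ext
      intro x
      change endo g hg (endo f hf (PresentedGroup.mk {zeta 6} (FreeGroup.of x))) =
        PresentedGroup.mk {zeta 6} (FreeGroup.of x)
      rw [endo_mk, endo_mk, FreeGroup.lift_apply_of, hgf])
    (by
      apply PresentedGroup.ext
      intro x
      change endo f hf (endo g hg (PresentedGroup.mk {zeta 6} (FreeGroup.of x))) =
        PresentedGroup.mk {zeta 6} (FreeGroup.of x)
      rw [endo_mk, endo_mk, FreeGroup.lift_apply_of, hfg])

theorem mkAut_apply (f g : Gen → FreeGroup Gen) (hf : FreeGroup.lift f (zeta 6) = zeta 6)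
    (hg : FreeGroup.lift g (zeta 6) = zeta 6) (hfg : ∀ x, FreeGroup.lift f (g x) = FreeGroup.of x)
    (hgf : ∀ x, FreeGroup.lift g (f x) = FreeGroup.of x) (x : Gen) :
    mkAut f g hf hg hfg hgf (PresentedGroup.of x) = PresentedGroup.mk {zeta 6} (f x) := by
  have := endo_mk f hf (FreeGroup.of x)
  rw [FreeGroup.lift_apply_of] at this
  exact this

/-- The positive Dehn twist about one of Lickorish's curves, as an automorphism of the fundamental
group. -/
def twist (l : Lick) : MulAut Pi1 :=
  mkAut (twistImage l true) (twistImage l false) (twist_ok l true).1 (twist_ok l false).1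
    (twist_ok l true).2 (twist_ok l false).2

/-- The positive Dehn twist about the separating curve which bounds the first `k` handles, as an
automorphism of the fundamental group. -/
def sepTwist (k : Fin 4) : MulAut Pi1 :=
  mkAut (sepImage k true) (sepImage k false) (sep_ok k true).1 (sep_ok k false).1
    (sep_ok k true).2 (sep_ok k false).2

instance innNormal : ((MulAut.conj : Pi1 →* MulAut Pi1).range).Normal := by
  refine ⟨?_⟩
  rintro _ ⟨x, rfl⟩ g
  refine ⟨g x, ?_⟩
  apply MulEquiv.ext
  intro y
  simp [MulAut.mul_apply, MulAut.conj_apply]

/-- The inner automorphisms of the surface group. -/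
def Inn : Subgroup (MulAut Pi1) := (MulAut.conj : Pi1 →* MulAut Pi1).range

instance innNormal' : Inn.Normal := innNormal

/-- The outer automorphism group of the surface group. -/
abbrev OutPi : Type := MulAut Pi1 ⧸ Inn

/-- The group structure of the outer automorphism group. -/
instance outPiGroup : Group OutPi := inferInstance

/-- Words in Lickorish's generators: `(l, true)` is the positive twist about `l` and `(l, false)`
its inverse. -/
abbrev Word : Type := List (Lick × Bool)

/-- The automorphism given by a word. -/
def ev (w : Word) : MulAut Pi1 :=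
  (w.map fun l => if l.2 then twist l.1 else (twist l.1)⁻¹).prod

/-- Names of positive Dehn twists: `(0, w)` stands for the twist about the image of the
nonseparating curve `a_0` under the mapping class of `w`, and `(k, w)` with `k = 1, 2, 3` for the
twist about the image of the separating curve which bounds the first `k` handles. -/
abbrev Entry : Type := Fin 4 × Word

/-- The mapping class (outer automorphism) of the positive Dehn twist with a given name. -/
def dehn (x : Entry) : OutPi :=
  QuotientGroup.mk (ev x.2 * (if x.1 = 0 then twist (.inl 0) else sepTwist x.1) * (ev x.2)⁻¹)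

/-- A factorization of the identity into positive Dehn twists, given by names. -/
def IsFactorization (x : List Entry) : Prop := (x.map dehn).prod = 1

/-- A Hurwitz move. -/
inductive HurwitzMove {M : Type} [Group M] : List M → List M → Prop
  | mk (l r : List M) (s t : M) : HurwitzMove (l ++ s :: t :: r) (l ++ (s * t * s⁻¹) :: s :: r)

/-- Hurwitz equivalence: finitely many Hurwitz moves and inverses of Hurwitz moves. -/
def HurwitzEquiv {M : Type} [Group M] (u v : List M) : Prop := Relation.EqvGen HurwitzMove u v

end Pool.Agent.Y524H
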