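import Mathlib

set_option autoImplicit false

/-! Computing with words and tables of words. The letter `2 j` stands for the generator number `j`
and the letter `2 j + 1` for its inverse; there are twelve generators. -/

namespace Pool.Agent.Y524H

/-- The inverse letter. -/
def invL (n : ℕ) : ℕ := if n % 2 = 0 then n + 1 else n - 1

/-- Multiply a reduced word by a letter on the left. -/
def push (n : ℕ) : List ℕ → List ℕ
  | [] => [n]
  | m :: w => if m = invL n then w else n :: m :: w

/-- Reduced product. -/
def app (u w : List ℕ) : List ℕ := u.foldr push w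

/-- Inverse word. -/
def invW (w : List ℕ) : List ℕ := (w.map invL).reverse

/-- The image of a letter. -/
def look (T : List (List ℕ)) (n : ℕ) : List ℕ :=
  if n % 2 = 0 then T.getD ((n / 2) % 12) [] else invW (T.getD ((n / 2) % 12) [])

/-- Substitution. -/
def subst (T : List (List ℕ)) (w : List ℕ) : List ℕ := w.foldr (fun n acc => app (look T n) acc) []

/-- Composition of tables. -/
def comp (S T : List (List ℕ)) : List (List ℕ) := T.map (subst S)

section den

variable {G H : Type} [Group G] [Group H]

/-- The value of a letter. -/
def dl (v : ℕ → G) (n : ℕ) : G := if n % 2 = 0 then v (n / 2) else (v (n / 2))⁻¹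

/-- The value of a word. -/
def den (v : ℕ → G) : List ℕ → G
  | [] => 1
  | n :: w => dl v n * den v w

theorem dl_invL (v : ℕ → G) (n : ℕ) : dl v (invL n) = (dl v n)⁻¹ := by
  unfold dl invL
  by_cases h : n % 2 = 0
  · have h1 : (n + 1) % 2 = 1 := by omega
    have h2 : (n + 1) / 2 = n / 2 := by omega
    simp [h, h1, h2]
  · have h1 : (n - 1) % 2 = 0 := by omega
    have h2 : (n - 1) / 2 = n / 2 := by omega
    simp [h, h1, h2]

theorem den_push (v : ℕ → G) (n : ℕ) (w : List ℕ) : den v (push n w) = dl v n * den v w := by
  cases w with
  | nil => rfl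
  | cons m w =>
    simp only [push]
    split_ifs with h
    · rw [den, h, dl_invL, mul_inv_cancel_left]
    · rfl

theorem den_app (v : ℕ → G) (u w : List ℕ) : den v (app u w) = den v u * den v w := by
  induction u with
  | nil => simp [app, den]
  | cons n u ih =>
    have : app (n :: u) w = push n (app u w) := rfl
    rw [this, den_push, ih, den, mul_assoc]

theorem den_append (v : ℕ → G) (u w : List ℕ) : den v (u ++ w) = den v u * den v w := by
  induction u with
  | nil => simp [den]
  | cons n u ih => rw [List.cons_append, den, ih, den, mul_assoc]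

theorem den_invW (v : ℕ → G) (w : List ℕ) : den v (invW w) = (den v w)⁻¹ := by
  induction w with
  | nil => simp [invW, den]
  | cons n w ih =>
    have : invW (n :: w) = invW w ++ [invL n] := by simp [invW]
    rw [this, den_append, ih, den, den, den, mul_one, dl_invL, mul_inv_rev]

theorem den_subst (f : G →* H) (x : ℕ → G) (y : ℕ → H) (T : List (List ℕ))
    (h : ∀ j, f (x j) = den y (T.getD (j % 12) [])) (w : List ℕ) :
    f (den x w) = den y (subst T w) := by
  induction w with
  | nil => simp [subst, den]
  | cons n w ih =>
    have : subst T (n :: w) = app (look T n) (subst T w) := rfl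
    rw [this, den_app, den, map_mul, ih]
    congr 1
    unfold dl look
    split_ifs with h2
    · exact h _
    · rw [map_inv, h, den_invW]

theorem getD_comp (S T : List (List ℕ)) (j : ℕ) :
    (comp S T).getD j [] = subst S (T.getD j []) := by
  unfold comp
  have h : subst S [] = [] := rfl
  conv_lhs => rw [← h]
  rw [List.getD_map]

end den

/-- The table of the identity. -/
def idT : List (List ℕ) := (List.range 12).map fun j => [2 * j]

/-- A table for an endomorphism in terms of a generating family. -/
def IsTab {G : Type} [Group G] (x : ℕ → G) (f : G → G) (T : List (List ℕ)) : Prop :=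
  ∀ j, f (x j) = den x (T.getD (j % 12) [])

theorem IsTab.comp {G : Type} [Group G] {x : ℕ → G} {f g : MulAut G} {S T : List (List ℕ)}
    (hf : IsTab x f S) (hg : IsTab x g T) : IsTab x (f * g : MulAut G) (comp S T) := by
  intro j
  rw [getD_comp, MulAut.mul_apply, hg j]
  exact den_subst f.toMonoidHom x x S hf _

theorem idT_isTab {G : Type} [Group G] {x : ℕ → G} (hx : ∀ j, x (j % 12) = x j) :
    IsTab x (1 : MulAut G) idT := by
  intro j
  rw [MulAut.one_apply]
  have h : j % 12 < 12 := Nat.mod_lt _ (by norm_num)
  have h2 : idT.getD (j % 12) [] = [2 * (j % 12)] := by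
    have : ∀ i < 12, idT.getD i [] = [2 * i] := by decide
    exact this _ h
  rw [h2, den, den, mul_one, dl]
  have h3 : 2 * (j % 12) % 2 = 0 := by omega
  have h4 : 2 * (j % 12) / 2 = j % 12 := by omega
  rw [if_pos h3, h4, hx]

/-- The table of the conjugation by a word. -/
def conjT (w : List ℕ) : List (List ℕ) :=
  (List.range 12).map fun j => app w (push (2 * j) (invW w))

theorem conjT_isTab {G : Type} [Group G] {x : ℕ → G} (hx : ∀ j, x (j % 12) = x j) (w : List ℕ) :
    IsTab x (MulAut.conj (den x w)) (conjT w) := by
  intro j
  have h : j % 12 < 12 := Nat.mod_lt _ (by norm_num)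
  have h2 : (conjT w).getD (j % 12) [] = app w (push (2 * (j % 12)) (invW w)) := by
    unfold conjT
    rw [List.getD_eq_getElem?_getD, List.getElem?_map, List.getElem?_range h]
    rfl
  rw [h2, den_app, den_push, den_invW, dl]
  have h3 : 2 * (j % 12) % 2 = 0 := by omega
  have h4 : 2 * (j % 12) / 2 = j % 12 := by omega
  rw [if_pos h3, h4, hx, MulAut.conj_apply, mul_assoc]

theorem IsTab.ext {G : Type} [Group G] {x : ℕ → G} (hgen : Subgroup.closure (Set.range x) = ⊤)
    {f g : MulAut G} {S : List (List ℕ)} (hf : IsTab x f S) (hg : IsTab x g S) : f = g := by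
  apply MulEquiv.ext
  intro z
  have : f.toMonoidHom = g.toMonoidHom := by
    apply MonoidHom.eq_of_eqOn_dense hgen
    rintro _ ⟨j, rfl⟩
    exact (hf j).trans (hg j).symm
  exact DFunLike.congr_fun this z

end Pool.Agent.Y524H
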