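import Mathlib

set_option autoImplicit false

/-! Embedding a countable family of elements in a two-generator group (Neumann, Galvin). -/

namespace Pool.Agent.Y524H

section Wreath

variable (G : Type) [Group G]

/-- The shift. -/
def shiftHom : Multiplicative ℤ →* MulAut (ℤ → G) where
  toFun n :=
    { toFun := fun f k => f (k - n.toAdd)
      invFun := fun f k => f (k + n.toAdd)
      left_inv := fun f => by funext k; simp
      right_inv := fun f => by funext k; simp
      map_mul' := fun f g => rfl }
  map_one' := by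
    apply MulEquiv.ext
    intro f
    funext k
    simp
  map_mul' m n := by
    apply MulEquiv.ext
    intro f
    funext k
    change f (k - (m * n).toAdd) = f (k - m.toAdd - n.toAdd)
    congr 1
    rw [toAdd_mul]
    ring

theorem shiftHom_apply (n : Multiplicative ℤ) (f : ℤ → G) (k : ℤ) :
    shiftHom G n f k = f (k - n.toAdd) := rfl

/-- The unrestricted wreath product with the integers. -/
abbrev Wr : Type := (ℤ → G) ⋊[shiftHom G] Multiplicative ℤ

variable {G}

/-- The shift element. -/
def sh : Wr G := SemidirectProduct.inr (Multiplicative.ofAdd 1)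

theorem sh_zpow (n : ℤ) : (sh : Wr G) ^ n = SemidirectProduct.inr (Multiplicative.ofAdd n) := by
  rw [sh, ← map_zpow, ← ofAdd_zsmul]
  simp

theorem sh_conj (n : ℤ) (f : ℤ → G) : (sh : Wr G) ^ n * SemidirectProduct.inl f * (sh ^ n)⁻¹ =
    SemidirectProduct.inl (fun k => f (k - n)) := by
  rw [sh_zpow, ← map_inv, ← SemidirectProduct.inl_aut]
  rfl

/-- The embedding at position zero. -/
def pos0 : G →* Wr G := SemidirectProduct.inl.comp (MonoidHom.mulSingle (fun _ : ℤ => G) 0)

theorem pos0_injective : Function.Injective (pos0 : G → Wr G) := by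
  intro x y h
  have h1 := SemidirectProduct.inl_injective h
  exact Pi.mulSingle_injective _ h1

/-- A half-line function. -/
def half (g : G) : Wr G := SemidirectProduct.inl fun k : ℤ => if 0 ≤ k then g else 1

theorem half_comm (g : G) : half g * sh * (half g)⁻¹ * sh⁻¹ = pos0 g := by
  have h1 := sh_conj (G := G) 1 (fun k : ℤ => if 0 ≤ k then g⁻¹ else 1)
  rw [zpow_one] at h1
  have h2 : (half g)⁻¹ = SemidirectProduct.inl (fun k : ℤ => if 0 ≤ k then g⁻¹ else 1) := by
    rw [half, ← map_inv]
    congr 1
    funext k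
    simp only [Pi.inv_apply]
    split_ifs <;> simp
  have h3 : half g * sh * (half g)⁻¹ * sh⁻¹ = half g * (sh * (half g)⁻¹ * sh⁻¹) := by group
  rw [h3, h2, h1, half, ← map_mul, pos0, MonoidHom.comp_apply]
  congr 1
  funext k
  simp only [Pi.mul_apply, MonoidHom.mulSingle_apply]
  by_cases h0 : k = 0
  · subst h0; simp
  · rw [Pi.mulSingle_eq_of_ne h0]
    by_cases h : 0 ≤ k
    · have h4 : 0 ≤ k - 1 := by omega
      rw [if_pos h, if_pos h4, mul_inv_cancel]
    · have h4 : ¬ 0 ≤ k - 1 := by omega
      rw [if_neg h, if_neg h4, mul_one]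

/-- Two generators give all members of a finite family. -/
theorem two_gen (m : ℕ) (f : Fin m → G) : ∃ (P : Type) (_ : Group P) (u v : P) (ι : G →* P),
    Function.Injective ι ∧ ∀ i : Fin m,
      ((v ^ 3 ^ i.val)⁻¹ * u * v ^ 3 ^ i.val) * u * ((v ^ 3 ^ i.val)⁻¹ * u⁻¹ * v ^ 3 ^ i.val) *
        u⁻¹ = ι (f i) := by
  classical
  -- the function with value `sh` at `0` and `half (f i)` at `3 ^ i`
  let h : ℤ → Wr G := fun k => if k = 0 then sh else
    if hk : ∃ i : Fin m, k = 3 ^ i.val then half (f hk.choose) else 1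
  have h0 : h 0 = sh := by simp [h]
  have hi : ∀ i : Fin m, h (3 ^ i.val) = half (f i) := by
    intro i
    have hne : ((3 : ℤ) ^ i.val) ≠ 0 := by positivity
    have hex : ∃ j : Fin m, (3 : ℤ) ^ i.val = 3 ^ j.val := ⟨i, rfl⟩
    have : hex.choose = i := by
      have := hex.choose_spec
      have h2 : i.val = hex.choose.val := Int.pow_right_injective (by norm_num) this
      exact (Fin.ext h2).symm
    simp only [h, if_neg hne, dif_pos hex, this]
  have hother : ∀ k : ℤ, k ≠ 0 → (∀ i : Fin m, k ≠ 3 ^ i.val) → h k = 1 := by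
    intro k hk hk2
    have : ¬ ∃ i : Fin m, k = 3 ^ i.val := by rintro ⟨i, hi⟩; exact hk2 i hi
    simp only [h, if_neg hk, dif_neg this]
  refine ⟨Wr (Wr G), inferInstance, SemidirectProduct.inl h, sh, pos0.comp pos0,
    pos0_injective.comp pos0_injective, ?_⟩
  intro i
  have c1 : ∀ g : ℤ → Wr G, ((sh : Wr (Wr G)) ^ 3 ^ i.val)⁻¹ * SemidirectProduct.inl g *
      sh ^ 3 ^ i.val = SemidirectProduct.inl (fun k => g (k + 3 ^ i.val)) := by
    intro g
    have := sh_conj (G := Wr G) (-(3 ^ i.val : ℤ)) g
    rw [zpow_neg, inv_inv] at this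
    have e : (sh : Wr (Wr G)) ^ ((3 : ℤ) ^ i.val) = sh ^ 3 ^ i.val := by
      rw [← zpow_natCast]; norm_cast
    rw [e] at this
    rw [this]
    congr 1
    funext k
    rw [sub_neg_eq_add]
  have c2 : (SemidirectProduct.inl h : Wr (Wr G))⁻¹ = SemidirectProduct.inl (fun k => (h k)⁻¹) := by
    rw [← map_inv]; rfl
  rw [c2, c1, c1, ← map_mul, ← map_mul, ← map_mul, MonoidHom.comp_apply, pos0, MonoidHom.comp_apply]
  congr 1
  funext k
  simp only [Pi.mul_apply, MonoidHom.mulSingle_apply]
  by_cases hk : k = 0
  · subst hk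
    rw [zero_add, hi, h0, Pi.mulSingle_eq_same]
    exact half_comm (f i)
  · rw [Pi.mulSingle_eq_of_ne hk]
    by_cases h1 : h k = 1
    · rw [h1]; simp
    · have h2 : h (k + 3 ^ i.val) = 1 := by
        obtain ⟨j, hj⟩ : ∃ j : Fin m, k = 3 ^ j.val := by
          by_contra hcon
          exact h1 (hother k hk fun j hj => hcon ⟨j, hj⟩)
        subst hj
        apply hother
        · positivity
        · intro l hl
          -- `3 ^ j + 3 ^ i = 3 ^ l` is impossible
          have hl' : 3 ^ j.val + 3 ^ i.val = 3 ^ l.val := by exact_mod_cast hl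
          have hodd : ∀ n : ℕ, 3 ^ n % 2 = 1 := by
            intro n
            rw [Nat.pow_mod]
            simp
          have a1 := hodd j.val
          have a2 := hodd i.val
          have a3 := hodd l.val
          omega
      rw [h2]; simp

end Wreath

end Pool.Agent.Y524H
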