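import Pool.Agent.Y524H.Gal
import Pool.Agent.Helper270.WPB

set_option autoImplicit false

/-! A two-generator finitely presented group with undecidable word problem. -/

namespace Pool.Agent.Y524H

/-- Powers of a letter. -/
def rep (x : Fin 2 × Bool) (n : ℕ) : List (Fin 2 × Bool) := List.replicate n x

theorem mk_rep (i : Fin 2) (n : ℕ) : FreeGroup.mk (rep (i, true) n) = FreeGroup.of i ^ n := by
  induction n with
  | zero => rfl
  | succ n ih =>
    rw [rep, List.replicate_succ, ← List.singleton_append, ← FreeGroup.mul_mk, pow_succ', ← ih]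
    rfl

/-- The inverse of a word. -/
def iw {α : Type} (w : List (α × Bool)) : List (α × Bool) := FreeGroup.invRev w

theorem mk_iw {α : Type} (w : List (α × Bool)) : FreeGroup.mk (iw w) = (FreeGroup.mk w)⁻¹ :=
  FreeGroup.inv_mk.symm

/-- The words of the embedding. -/
def Vw (i : ℕ) : List (Fin 2 × Bool) :=
  iw (rep (1, true) (3 ^ i)) ++ [(0, true)] ++ rep (1, true) (3 ^ i) ++ [(0, true)] ++
    (iw (rep (1, true) (3 ^ i)) ++ [(0, false)] ++ rep (1, true) (3 ^ i)) ++ [(0, false)]

theorem mk_Vw (i : ℕ) : FreeGroup.mk (Vw i) =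
    ((FreeGroup.of 1 ^ 3 ^ i)⁻¹ * FreeGroup.of 0 * FreeGroup.of 1 ^ 3 ^ i) * FreeGroup.of 0 *
      ((FreeGroup.of 1 ^ 3 ^ i)⁻¹ * (FreeGroup.of 0)⁻¹ * FreeGroup.of 1 ^ 3 ^ i) *
        (FreeGroup.of (0 : Fin 2))⁻¹ := by
  have e1 : FreeGroup.mk [((0 : Fin 2), true)] = FreeGroup.of 0 := rfl
  have e2 : FreeGroup.mk [((0 : Fin 2), false)] = (FreeGroup.of 0)⁻¹ := rfl
  simp only [Vw, ← FreeGroup.mul_mk, mk_iw, mk_rep, e1, e2]

/-- Substitution of words for letters. -/
def sub {m : ℕ} (w : List (Fin m × Bool)) : List (Fin 2 × Bool) :=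
  w.flatMap fun x => if x.2 then Vw x.1.val else iw (Vw x.1.val)

theorem mk_sub {m : ℕ} (w : List (Fin m × Bool)) : FreeGroup.mk (sub w) =
    FreeGroup.lift (fun i : Fin m => FreeGroup.mk (Vw i.val)) (FreeGroup.mk w) := by
  induction w with
  | nil => simp [sub, ← FreeGroup.one_eq_mk]
  | cons x w ih =>
    have h1 : sub (x :: w) = (if x.2 then Vw x.1.val else iw (Vw x.1.val)) ++ sub w := by
      simp [sub]
    have h2 : FreeGroup.mk (x :: w) = FreeGroup.mk [x] * FreeGroup.mk w := by
      rw [FreeGroup.mul_mk]; rfl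
    rw [h1, ← FreeGroup.mul_mk, ih, h2, map_mul]
    congr 1
    obtain ⟨i, e⟩ := x
    cases e
    · have : FreeGroup.mk [(i, false)] = (FreeGroup.of i)⁻¹ := rfl
      rw [this, map_inv, FreeGroup.lift_apply_of]
      simp [mk_iw]
    · have : FreeGroup.mk [(i, true)] = FreeGroup.of i := rfl
      rw [this, FreeGroup.lift_apply_of]
      simp

theorem sub_computable {m : ℕ} : Computable (sub : List (Fin m × Bool) → List (Fin 2 × Bool)) := by
  have h0 : Primrec (fun x : Fin m × Bool => if x.2 then Vw x.1.val else iw (Vw x.1.val)) :=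
    Primrec.dom_finite _
  have h : Primrec₂ (fun (_ : List (Fin m × Bool)) (x : Fin m × Bool) =>
      if x.2 then Vw x.1.val else iw (Vw x.1.val)) := h0.comp Primrec.snd
  exact (Primrec.list_flatMap Primrec.id h).to_comp

theorem word_problem_two : ∃ (rl : List (List (Fin 2 × Bool))) (W : ℕ → List (Fin 2 × Bool)),
    Computable W ∧ ¬ ComputablePred (fun n => FreeGroup.mk (W n) ∈
      Subgroup.normalClosure {x : FreeGroup (Fin 2) | ∃ r ∈ rl, x = FreeGroup.mk r}) := by
  obtain ⟨m, R, W, hW, hn⟩ := Pool.Agent.Helper270.WP.word_problem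
  refine ⟨R.toList.map fun r => sub r.toWord, fun n => sub (W n), sub_computable.comp hW, ?_⟩
  intro hc
  apply hn
  refine hc.of_eq ?_
  intro n
  let V : FreeGroup (Fin m) →* FreeGroup (Fin 2) :=
    FreeGroup.lift (fun i : Fin m => FreeGroup.mk (Vw i.val))
  have hset : {x : FreeGroup (Fin 2) | ∃ r ∈ R.toList.map (fun r => sub r.toWord),
      x = FreeGroup.mk r} = V '' (R : Set (FreeGroup (Fin m))) := by
    ext x
    simp only [Set.mem_ofPred_eq, List.mem_map, Finset.mem_toList, Set.mem_image, Finset.mem_coe]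
    constructor
    · rintro ⟨_, ⟨r, hr, rfl⟩, rfl⟩
      refine ⟨r, hr, ?_⟩
      rw [mk_sub, FreeGroup.mk_toWord]
    · rintro ⟨r, hr, rfl⟩
      refine ⟨_, ⟨r, hr, rfl⟩, ?_⟩
      rw [mk_sub, FreeGroup.mk_toWord]
  rw [hset, mk_sub]
  change V (FreeGroup.mk (W n)) ∈ _ ↔ _
  constructor
  · intro h
    obtain ⟨P, _, u, v, ι, hι, huv⟩ := two_gen m
      (fun i => (PresentedGroup.of i : PresentedGroup (R : Set (FreeGroup (Fin m)))))
    let Ψ : FreeGroup (Fin 2) →* P := FreeGroup.lift ![u, v]
    have hΨ : Ψ.comp V = ι.comp (PresentedGroup.mk (R : Set (FreeGroup (Fin m)))) := by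
      apply FreeGroup.ext_hom
      intro i
      simp only [MonoidHom.comp_apply, V, FreeGroup.lift_apply_of, mk_Vw]
      have := huv i
      simp only [Ψ, map_mul, map_inv, map_pow, FreeGroup.lift_apply_of, Matrix.cons_val_zero,
        Matrix.cons_val_one]
      exact this
    have hker : Subgroup.normalClosure (V '' (R : Set (FreeGroup (Fin m)))) ≤ Ψ.ker := by
      apply Subgroup.normalClosure_le_normal
      rintro _ ⟨r, hr, rfl⟩
      have := DFunLike.congr_fun hΨ r
      rw [MonoidHom.comp_apply, MonoidHom.comp_apply, PresentedGroup.one_of_mem hr, map_one] at this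
      exact this
    have h1 := hker h
    have h2 := DFunLike.congr_fun hΨ (FreeGroup.mk (W n))
    rw [MonoidHom.comp_apply, MonoidHom.comp_apply, MonoidHom.mem_ker.1 h1] at h2
    have h3 := hι (h2.symm.trans (map_one ι).symm)
    exact (QuotientGroup.eq_one_iff _).1 h3
  · intro h
    have := Subgroup.mem_map_of_mem V h
    have h2 : (Subgroup.normalClosure (R : Set (FreeGroup (Fin m)))).map V ≤
        Subgroup.normalClosure (V '' (R : Set (FreeGroup (Fin m)))) := by
      rw [Subgroup.map_le_iff_le_comap]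
      apply Subgroup.normalClosure_le_normal
      intro r hr
      exact Subgroup.subset_normalClosure ⟨r, hr, rfl⟩
    exact h2 this

end Pool.Agent.Y524H
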