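import Pool.Agent.Y524H.Phi
import Pool.Agent.Y524H.WP2

set_option autoImplicit false

/-! The main construction. -/

namespace Pool.Agent.Y524H

/-- The quotient map to outer automorphisms. -/
def qq : MulAut Pi1 →* OutPi := QuotientGroup.mk' _

theorem qq_conj (x : Pi1) : qq (MulAut.conj x) = 1 :=
  (QuotientGroup.eq_one_iff _).2 ⟨x, rfl⟩

/-- The eight twists of the relation. -/
def r0e : List Entry := [(0, f0w), (0, f1w), (0, f2w), (0, f3w), (0, f4w), (0, f5w), (0, f6w),
  (3, [])]

/-- The positive relation. -/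
def R0e : List Entry := r0e ++ r0e

theorem dehn_zero (w : Word) : dehn (0, w) = qq (ev (w ++ [lA 0] ++ invWd w)) := by
  rw [ev_append, ev_append, ev_invWd, ev_single]
  rfl

theorem r0e_prod : (r0e.map dehn).prod = qq sg := by
  have h3 : dehn (3, []) = qq (sepTwist 3) := by
    unfold dehn
    have h : ((3 : Fin 4), ([] : Word)).1 ≠ 0 := by decide
    rw [if_neg h]
    simp only [ev, List.map_nil, List.prod_nil, one_mul, inv_one, mul_one]
    rfl
  have hsg : qq sg = qq Pm := by rw [sg, map_mul, qq_conj, one_mul]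
  rw [hsg]
  simp only [r0e, List.map_cons, List.map_nil, List.prod_cons, List.prod_nil, mul_one, dehn_zero,
    h3, Pm, map_mul]

theorem R0e_prod : (R0e.map dehn).prod = 1 := by
  rw [R0e, List.map_append, List.prod_append, r0e_prod, ← map_mul, sg_sq, map_one]

/-- Conjugation of an entry. -/
def cj (s : Word) (e : Entry) : Entry := (e.1, s ++ e.2)

theorem dehn_cj (s : Word) (e : Entry) : dehn (cj s e) = MulAut.conj (qq (ev s)) (dehn e) := by
  have h1 : dehn (cj s e) = qq (ev (s ++ e.2) * (if e.1 = 0 then twist (.inl 0) else sepTwist e.1) *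
    (ev (s ++ e.2))⁻¹) := rfl
  have h2 : dehn e = qq (ev e.2 * (if e.1 = 0 then twist (.inl 0) else sepTwist e.1) *
    (ev e.2)⁻¹) := rfl
  rw [h1, h2, ev_append, MulAut.conj_apply, ← map_inv, ← map_mul, ← map_mul]
  simp only [mul_inv_rev, mul_assoc]

theorem map_dehn_cj (s : Word) (l : List Entry) :
    (l.map (cj s)).map dehn = (l.map dehn).map (MulAut.conj (qq (ev s))) := by
  rw [List.map_map, List.map_map]
  apply List.map_congr_left
  intro e _
  exact dehn_cj s e

/-- The word of a pushing map. -/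
def Gw (w : List (Fin 2 × Bool)) : Word :=
  w.flatMap fun x => if x.2 then Gi x.1 else invWd (Gi x.1)

theorem ev_Gw (w : List (Fin 2 × Bool)) : ev (Gw w) = Gh (FreeGroup.mk w) := by
  induction w with
  | nil => simp [Gw, ev, ← FreeGroup.one_eq_mk]
  | cons x w ih =>
    have h1 : Gw (x :: w) = (if x.2 then Gi x.1 else invWd (Gi x.1)) ++ Gw w := by
      simp [Gw]
    have h2 : FreeGroup.mk (x :: w) = FreeGroup.mk [x] * FreeGroup.mk w := by
      rw [FreeGroup.mul_mk]; rfl
    rw [h1, ev_append, ih, h2, map_mul]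
    congr 1
    obtain ⟨i, e⟩ := x
    cases e
    · have : FreeGroup.mk [(i, false)] = (FreeGroup.of i)⁻¹ := rfl
      rw [this, map_inv, Gh, FreeGroup.lift_apply_of]
      simp [ev_invWd]
    · have : FreeGroup.mk [(i, true)] = FreeGroup.of i := rfl
      rw [this, Gh, FreeGroup.lift_apply_of]
      simp

/-- The conjugating words of length one. -/
def S0 (rl : List (List (Fin 2 × Bool))) : List Word :=
  [Di 0, Di 1, [lA 1], [lB 1]] ++ rl.map Gw

/-- The conjugating words. -/
def Sw (rl : List (List (Fin 2 × Bool))) : List Word :=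
  S0 rl ++ (S0 rl).flatMap fun s => (S0 rl).map fun t => s ++ t

/-- The factorization. -/
def tau (rl : List (List (Fin 2 × Bool))) : List Entry :=
  R0e ++ (Sw rl).flatMap fun s => R0e.map (cj s)

theorem tau_isFactorization (rl : List (List (Fin 2 × Bool))) : IsFactorization (tau rl) := by
  have h : ∀ l : List Word, ((l.flatMap fun s => R0e.map (cj s)).map dehn).prod = 1 := by
    intro l
    induction l with
    | nil => rfl
    | cons s l ih =>
      rw [List.flatMap_cons, List.map_append, List.prod_append, ih, mul_one, map_dehn_cj,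
        List.prod_hom, R0e_prod, map_one]
  rw [IsFactorization, tau, List.map_append, List.prod_append, h, R0e_prod, one_mul]

/-- The subgroup generated by the twists of the factorization. -/
def HH (rl : List (List (Fin 2 × Bool))) : Subgroup OutPi :=
  Subgroup.closure {x | x ∈ (tau rl).map dehn}

theorem theta_mem (rl : List (List (Fin 2 × Bool))) : qq sg ∈ HH rl := by
  rw [← r0e_prod]
  apply Subgroup.list_prod_mem
  intro x hx
  apply Subgroup.subset_closure
  simp only [Set.mem_ofPred_eq, tau, R0e, List.map_append, List.mem_append]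
  exact Or.inl (Or.inl hx)

theorem theta_conj_mem (rl : List (List (Fin 2 × Bool))) (s : Word) (hs : s ∈ Sw rl) :
    qq (ev s) * qq sg * (qq (ev s))⁻¹ ∈ HH rl := by
  rw [← MulAut.conj_apply, ← r0e_prod, ← List.prod_hom, ← map_dehn_cj]
  apply Subgroup.list_prod_mem
  intro x hx
  apply Subgroup.subset_closure
  simp only [Set.mem_ofPred_eq, tau, List.map_append, List.mem_append]
  right
  rw [List.mem_map] at hx ⊢
  obtain ⟨e, he, rfl⟩ := hx
  refine ⟨e, ?_, rfl⟩
  rw [List.mem_flatMap]
  refine ⟨s, hs, ?_⟩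
  rw [List.mem_map] at he ⊢
  obtain ⟨e', he', rfl⟩ := he
  refine ⟨e', ?_, rfl⟩
  rw [R0e]
  exact List.mem_append_left _ he'

/-- The subgroup of the left half. -/
def LL : Subgroup OutPi := Subgroup.closure {x | ∃ l ∈ Lset, x = qq (twist l)}

/-- The subgroup of the right half. -/
def RR : Subgroup OutPi := Subgroup.closure {x | ∃ l ∈ Lset, x = qq (twist (bar l))}

theorem LR_comm : ∀ x ∈ LL, ∀ y ∈ RR, x * y = y * x := by
  intro x hx y hy
  have h1 : LL ≤ Subgroup.centralizer (RR : Set OutPi) := by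
    rw [LL, Subgroup.closure_le]
    rintro _ ⟨l, hl, rfl⟩
    rw [SetLike.mem_coe, Subgroup.mem_centralizer_iff]
    intro z hz
    have h2 : RR ≤ Subgroup.centralizer {qq (twist l)} := by
      rw [RR, Subgroup.closure_le]
      rintro _ ⟨l', hl', rfl⟩
      rw [SetLike.mem_coe, Subgroup.mem_centralizer_iff]
      intro z hz
      rw [Set.mem_singleton_iff] at hz
      subst hz
      rw [← map_mul, comm_bar l hl l' hl', map_mul]
    have h3 := Subgroup.mem_centralizer_iff.1 (h2 hz) _ (Set.mem_singleton _)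
    exact h3.symm
  exact (Subgroup.mem_centralizer_iff.1 (h1 hx) y hy).symm

theorem theta_LR : ∀ x ∈ LL, qq sg * x * (qq sg)⁻¹ ∈ RR := by
  intro x hx
  have h1 : LL ≤ RR.comap (MulAut.conj (qq sg)).toMonoidHom := by
    rw [LL, Subgroup.closure_le]
    rintro _ ⟨l, hl, rfl⟩
    have h2 : qq sg * qq (twist l) * (qq sg)⁻¹ = qq (twist (bar l)) := by
      rw [← map_mul, sg_bar l hl, map_mul, mul_inv_cancel_right]
    have h3 : (MulAut.conj (qq sg)).toMonoidHom (qq (twist l)) = qq (twist (bar l)) := h2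
    rw [SetLike.mem_coe, Subgroup.mem_comap, h3]
    exact Subgroup.subset_closure ⟨l, hl, rfl⟩
  exact h1 hx

/-- Names of curves in the left half. -/
def inL : Lick → Bool
  | .inl i => i.val < 3
  | .inr (.inl i) => i.val < 3
  | .inr (.inr i) => i.val < 2

theorem inL_mem (l : Lick) (h : inL l = true) : l ∈ Lset := by
  rcases l with i | i | i <;> fin_cases i <;> simp [inL, Lset] at h ⊢

/-- Words in twists of the left half. -/
def isL (w : Word) : Prop := ∀ x ∈ w, inL x.1 = true

theorem isL_mem {w : Word} (h : isL w) : qq (ev w) ∈ LL := by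
  induction w with
  | nil =>
    have : ev ([] : Word) = 1 := rfl
    rw [this, map_one]
    exact LL.one_mem
  | cons l w ih =>
    have h2 : ev (l :: w) = (if l.2 then twist l.1 else (twist l.1)⁻¹) * ev w := by simp [ev]
    rw [h2, map_mul]
    refine LL.mul_mem ?_ (ih fun x hx => h x (List.mem_cons_of_mem _ hx))
    have hl : qq (twist l.1) ∈ LL :=
      Subgroup.subset_closure ⟨l.1, inL_mem _ (h l List.mem_cons_self), rfl⟩
    split_ifs
    · exact hl
    · rw [map_inv]; exact LL.inv_mem hl

theorem isL_append {u w : Word} (hu : isL u) (hw : isL w) : isL (u ++ w) := by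
  intro x hx
  rcases List.mem_append.1 hx with h | h
  · exact hu x h
  · exact hw x h

theorem isL_invWd {w : Word} (hw : isL w) : isL (invWd w) := by
  intro x hx
  simp only [invWd, List.mem_reverse, List.mem_map] at hx
  obtain ⟨y, hy, rfl⟩ := hx
  exact hw y hy

theorem isL_Gi (i : Fin 2) : isL (Gi i) := by
  have : ∀ i : Fin 2, ∀ x ∈ Gi i, inL x.1 = true := by decide +kernel
  exact this i

theorem isL_Di (i : Fin 2) : isL (Di i) := by
  have : ∀ i : Fin 2, ∀ x ∈ Di i, inL x.1 = true := by decide +kernel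
  exact this i

theorem isL_Gw (w : List (Fin 2 × Bool)) : isL (Gw w) := by
  intro x hx
  simp only [Gw, List.mem_flatMap] at hx
  obtain ⟨y, _, hx⟩ := hx
  split_ifs at hx
  · exact isL_Gi _ x hx
  · exact isL_invWd (isL_Gi _) x hx

theorem isL_S0 (rl : List (List (Fin 2 × Bool))) : ∀ s ∈ S0 rl, isL s := by
  intro s hs
  simp only [S0, List.mem_append, List.mem_cons, List.not_mem_nil, or_false, List.mem_map] at hs
  rcases hs with (rfl | rfl | rfl | rfl) | ⟨w, _, rfl⟩
  · exact isL_Di 0
  · exact isL_Di 1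
  · intro x hx
    rw [List.mem_singleton] at hx
    subst hx
    decide
  · intro x hx
    rw [List.mem_singleton] at hx
    subst hx
    decide
  · exact isL_Gw w

/-- The elements used in the commutator trick. -/
def SS (rl : List (List (Fin 2 × Bool))) : Set OutPi := {x | ∃ s ∈ S0 rl, x = qq (ev s)}

theorem comm_HH (rl : List (List (Fin 2 × Bool))) :
    ∀ x ∈ Subgroup.closure (SS rl), ∀ y ∈ Subgroup.closure (SS rl),
      x * y * x⁻¹ * y⁻¹ ∈ HH rl := by
  apply comm_mem LL RR (HH rl) (qq sg) LR_comm theta_LR (theta_mem rl) (SS rl)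
  · rintro _ ⟨s, hs, rfl⟩
    exact isL_mem (isL_S0 rl s hs)
  · rintro _ ⟨s, hs, rfl⟩
    exact theta_conj_mem rl s (List.mem_append_left _ hs)
  · rintro _ ⟨s, hs, rfl⟩ _ ⟨t, ht, rfl⟩
    rw [← map_mul, ← ev_append]
    apply theta_conj_mem rl (s ++ t)
    apply List.mem_append_right
    rw [List.mem_flatMap]
    exact ⟨s, hs, List.mem_map.2 ⟨t, ht, rfl⟩⟩

/-- The relators. -/
def Rel (rl : List (List (Fin 2 × Bool))) : Set (FreeGroup (Fin 2)) :=
  {x | ∃ r ∈ rl, x = FreeGroup.mk r}

theorem DG_all (i : Fin 2) (z : FreeGroup (Fin 2)) :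
    ev (Di i) * Gh z * (ev (Di i))⁻¹ = Gh (FreeGroup.of i * z * (FreeGroup.of i)⁻¹) := by
  have h : (MulAut.conj (ev (Di i))).toMonoidHom.comp Gh =
      (MulAut.conj (ev (Gi i))).toMonoidHom.comp Gh := by
    apply FreeGroup.ext_hom
    intro k
    have := DG i k
    have e : Gh (FreeGroup.of k) = ev (Gi k) := by rw [Gh, FreeGroup.lift_apply_of]
    simp only [MonoidHom.comp_apply, e]
    exact this
  have h1 := DFunLike.congr_fun h z
  have e : Gh (FreeGroup.of i) = ev (Gi i) := by rw [Gh, FreeGroup.lift_apply_of]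
  rw [map_mul, map_mul, map_inv, e]
  exact h1

theorem G_mem (rl : List (List (Fin 2 × Bool))) (z : FreeGroup (Fin 2))
    (hz : z ∈ Subgroup.normalClosure (Rel rl)) : qq (Gh z) ∈ Subgroup.closure (SS rl) := by
  let N : Subgroup (FreeGroup (Fin 2)) := (Subgroup.closure (SS rl)).comap (qq.comp Gh)
  have hD : ∀ i : Fin 2, qq (ev (Di i)) ∈ Subgroup.closure (SS rl) := by
    intro i
    apply Subgroup.subset_closure
    refine ⟨Di i, ?_, rfl⟩
    fin_cases i <;> simp [S0]
  have hN : N.Normal := by
    have h1 : ∀ i : Fin 2, ∀ n ∈ N, FreeGroup.of i * n * (FreeGroup.of i)⁻¹ ∈ N := by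
      intro i n hn
      change qq (Gh (FreeGroup.of i * n * (FreeGroup.of i)⁻¹)) ∈ Subgroup.closure (SS rl)
      rw [← DG_all, map_mul, map_mul, map_inv]
      exact Subgroup.mul_mem _ (Subgroup.mul_mem _ (hD i) hn) (Subgroup.inv_mem _ (hD i))
    have h2 : ∀ i : Fin 2, ∀ n ∈ N, (FreeGroup.of i)⁻¹ * n * FreeGroup.of i ∈ N := by
      intro i n hn
      change qq (Gh ((FreeGroup.of i)⁻¹ * n * FreeGroup.of i)) ∈ Subgroup.closure (SS rl)
      have h3 := DG_all i ((FreeGroup.of i)⁻¹ * n * FreeGroup.of i)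
      have h4 : FreeGroup.of i * ((FreeGroup.of i)⁻¹ * n * FreeGroup.of i) * (FreeGroup.of i)⁻¹ = n
        := by group
      rw [h4] at h3
      have h5 : Gh ((FreeGroup.of i)⁻¹ * n * FreeGroup.of i) =
          (ev (Di i))⁻¹ * Gh n * ev (Di i) := by
        rw [← h3]; group
      rw [h5, map_mul, map_mul, map_inv]
      exact Subgroup.mul_mem _ (Subgroup.mul_mem _ (Subgroup.inv_mem _ (hD i)) hn) (hD i)
    refine ⟨?_⟩
    intro n hn g
    induction g using FreeGroup.induction_on generalizing n with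
    | C1 => simpa using hn
    | of i => exact h1 i n hn
    | inv_of i _ =>
      rw [inv_inv]
      exact h2 i n hn
    | mul u v hu hv =>
      have := hu _ (hv n hn)
      have e : u * (v * n * v⁻¹) * u⁻¹ = u * v * n * (u * v)⁻¹ := by group
      rw [e] at this
      exact this
  have hle : Subgroup.normalClosure (Rel rl) ≤ N := by
    apply Subgroup.normalClosure_le_normal
    rintro _ ⟨r, hr, rfl⟩
    change qq (Gh (FreeGroup.mk r)) ∈ Subgroup.closure (SS rl)
    rw [← ev_Gw]
    apply Subgroup.subset_closure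
    refine ⟨Gw r, ?_, rfl⟩
    rw [S0]
    exact List.mem_append_right _ (List.mem_map.2 ⟨r, hr, rfl⟩)
  exact hle hz

/-- The conjugating word. -/
def dw (w : List (Fin 2 × Bool)) : Word := Gw w ++ [lA 1] ++ invWd (Gw w) ++ [lA 1 false]

theorem ev_dw (w : List (Fin 2 × Bool)) : ev (dw w) = Gh (FreeGroup.mk w) * twist (.inl 1) *
    (Gh (FreeGroup.mk w))⁻¹ * (twist (.inl 1))⁻¹ := by
  have h1 : ev [lA 1 false] = (twist (.inl 1))⁻¹ := by simp [ev]
  rw [dw, ev_append, ev_append, ev_append, ev_invWd, ev_Gw, ev_single, h1]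

theorem equiv_of_mem (rl : List (List (Fin 2 × Bool))) (w : List (Fin 2 × Bool))
    (hw : FreeGroup.mk w ∈ Subgroup.normalClosure (Rel rl)) :
    HurwitzEquiv ((tau rl).map dehn) (((tau rl).map (cj (dw w))).map dehn) := by
  rw [map_dehn_cj]
  apply conj_closure (tau_isFactorization rl)
  change _ ∈ HH rl
  rw [ev_dw, map_mul, map_mul, map_mul, map_inv, map_inv]
  apply comm_HH rl
  · exact G_mem rl _ hw
  · apply Subgroup.subset_closure
    refine ⟨[lA 1], ?_, by rw [ev_single]⟩
    simp [S0]

end Pool.Agent.Y524H
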