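import Pool.Agent.Y524H.Tab2

set_option autoImplicit false

/-! Homomorphisms from the surface group. -/

namespace Pool.Agent.Y524H

section

variable {Q : Type} [Group Q]

/-- The table of a homomorphism. -/
def PT (u : List ℕ) : List (List ℕ) := [[], [0], u, [], [], [2], [], [0], [], [], [], [2]]

/-- The word of the relation. -/
def zw : List ℕ := (List.range 6).flatMap fun i => [4 * i, 4 * i + 2, 4 * i + 1, 4 * i + 3]

theorem zeta_eq : zeta 6 = den fv zw := by decide +kernel

/-- Values of letters. -/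
def yy (p : Fin 2 → Q) (s : Q) : ℕ → Q
  | 0 => p 0
  | 1 => p 1
  | _ => s

/-- The homomorphism `Φ_s`: `b_0, b_3 ↦ p_0`, `b_2, b_5 ↦ p_1`, `a_1 ↦ s`, the other generators are
mapped to `1`. -/
def phiF (p : Fin 2 → Q) (s : Q) (x : Gen) : Q :=
  den (yy p s) ((PT [4]).getD (2 * x.1.val + if x.2 then 1 else 0) [])

theorem phiF_genOf (p : Fin 2 → Q) (s : Q) (j : ℕ) :
    phiF p s (genOf j) = den (yy p s) ((PT [4]).getD (j % 12) []) := by
  unfold phiF
  congr 2
  unfold genOf
  by_cases h : j % 2 = 1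
  · simp [h]; omega
  · simp [h]; omega

/-- The homomorphism `Φ_s`. -/
def Phi (p : Fin 2 → Q) (s : Q) : Pi1 →* Q :=
  PresentedGroup.toGroup (f := phiF p s) (by
    intro r hr
    rw [Set.mem_singleton_iff] at hr
    subst hr
    rw [zeta_eq, den_subst (FreeGroup.lift (phiF p s)) fv (yy p s) (PT [4])]
    · have : subst (PT [4]) zw = [] := by decide +kernel
      rw [this]
      rfl
    · intro j
      rw [fv, FreeGroup.lift_apply_of, phiF_genOf])

/-- A homomorphism has a given table. -/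
def HasT (f : Pi1 →* Q) (y : ℕ → Q) (P : List (List ℕ)) : Prop :=
  ∀ j, f (vv j) = den y (P.getD (j % 12) [])

theorem HasT.comp {f : Pi1 →* Q} {y : ℕ → Q} {P T : List (List ℕ)} {α : MulAut Pi1}
    (hf : HasT f y P) (hα : IsTab vv α T) : HasT (f.comp α.toMonoidHom) y (comp P T) := by
  intro j
  rw [getD_comp, MonoidHom.comp_apply]
  change f (α (vv j)) = _
  rw [hα j]
  exact den_subst f vv y P hf _

theorem HasT.ext {f g : Pi1 →* Q} {y : ℕ → Q} {P : List (List ℕ)}
    (hf : HasT f y P) (hg : HasT g y P) : f = g := by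
  apply MonoidHom.eq_of_eqOn_dense vv_gen
  rintro _ ⟨j, rfl⟩
  exact (hf j).trans (hg j).symm

theorem Phi_vv (p : Fin 2 → Q) (s : Q) : HasT (Phi p s) (yy p s) (PT [4]) := by
  intro j
  rw [← phiF_genOf]
  exact PresentedGroup.toGroup.of _

theorem forall_lt12 {P : ℕ → Prop} (h : ∀ j < 12, P j) (j : ℕ) : P (j % 12) :=
  h _ (Nat.mod_lt _ (by norm_num))

theorem PT_getD (u : List ℕ) (y : ℕ → Q) (j : ℕ) (hj : j < 12) :
    den y ((PT u).getD j []) = if j = 1 ∨ j = 7 then y 0 else if j = 5 ∨ j = 11 then y 1 else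
      if j = 2 then den y u else 1 := by
  interval_cases j <;> simp [PT, den, dl]

theorem Phi_hasT (p : Fin 2 → Q) (s s' : Q) (u : List ℕ) (hu : den (yy p s) u = s') :
    HasT (Phi p s') (yy p s) (PT u) := by
  intro j
  rw [Phi_vv p s' j, PT_getD _ _ _ (Nat.mod_lt _ (by norm_num)),
    PT_getD _ _ _ (Nat.mod_lt _ (by norm_num)), hu]
  simp [yy, den, dl]

theorem Phi_one (p : Fin 2 → Q) : HasT (Phi p 1) (yy p 1) (PT []) :=
  Phi_hasT p 1 1 [] rfl

/-- Automorphisms with a table which preserves the table of `Φ_1` preserve `Φ_1`. -/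
theorem stab_of_table (p : Fin 2 → Q) {α : MulAut Pi1} {T : List (List ℕ)}
    (hα : IsTab vv α T) (h : comp (PT []) T = PT []) :
    (Phi p 1).comp α.toMonoidHom = Phi p 1 :=
  ((Phi_one p).comp hα).ext (h.symm ▸ Phi_one p)

theorem Phi_G (p : Fin 2 → Q) (s : Q) (i : Fin 2) :
    (Phi p s).comp (ev (Gi i)).toMonoidHom = Phi p (s * p i) := by
  fin_cases i
  · have h1 := (Phi_vv p s).comp (tG0_ok ▸ ev_isTab (Gi 0))
    have h2 : comp (PT [4]) tG0 = PT [4, 0] := by decide +kernel
    rw [h2] at h1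
    exact h1.ext (Phi_hasT p s (s * p 0) [4, 0] (by simp [den, dl, yy]))
  · have h1 := (Phi_vv p s).comp (tG1_ok ▸ ev_isTab (Gi 1))
    have h2 : comp (PT [4]) tG1 = PT [4, 2] := by decide +kernel
    rw [h2] at h1
    exact h1.ext (Phi_hasT p s (s * p 1) [4, 2] (by simp [den, dl, yy]))

/-- The homomorphism from the free group of rank two given by the pushing maps. -/
def Gh : FreeGroup (Fin 2) →* MulAut Pi1 := FreeGroup.lift fun i => ev (Gi i)

theorem Phi_Gh (p : Fin 2 → Q) (z : FreeGroup (Fin 2)) :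
    ∀ s : Q, (Phi p s).comp (Gh z).toMonoidHom = Phi p (s * FreeGroup.lift p z) := by
  have hmul : ∀ u v : FreeGroup (Fin 2),
      (∀ s : Q, (Phi p s).comp (Gh u).toMonoidHom = Phi p (s * FreeGroup.lift p u)) →
      (∀ s : Q, (Phi p s).comp (Gh v).toMonoidHom = Phi p (s * FreeGroup.lift p v)) →
      ∀ s : Q, (Phi p s).comp (Gh (u * v)).toMonoidHom = Phi p (s * FreeGroup.lift p (u * v)) := by
    intro u v hu hv s
    rw [map_mul, map_mul, ← mul_assoc, ← hv, ← hu]
    rfl
  have hinv : ∀ u : FreeGroup (Fin 2),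
      (∀ s : Q, (Phi p s).comp (Gh u).toMonoidHom = Phi p (s * FreeGroup.lift p u)) →
      ∀ s : Q, (Phi p s).comp (Gh u⁻¹).toMonoidHom = Phi p (s * FreeGroup.lift p u⁻¹) := by
    intro u hu s
    have := hu (s * FreeGroup.lift p u⁻¹)
    rw [map_inv, inv_mul_cancel_right] at this
    rw [← map_inv] at this
    rw [← this]
    apply MonoidHom.ext
    intro x
    change Phi p (s * (FreeGroup.lift p) u⁻¹) ((Gh u) ((Gh u⁻¹) x)) = _
    rw [← MulAut.mul_apply, ← map_mul, mul_inv_cancel, map_one, MulAut.one_apply]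
  have hof : ∀ i, ∀ s : Q, (Phi p s).comp (Gh (FreeGroup.of i)).toMonoidHom =
      Phi p (s * FreeGroup.lift p (FreeGroup.of i)) := by
    intro i s
    rw [Gh, FreeGroup.lift_apply_of, FreeGroup.lift_apply_of]
    exact Phi_G p s i
  induction z using FreeGroup.induction_on with
  | C1 => intro s; rw [map_one, map_one, mul_one]; rfl
  | of i => exact hof i
  | inv_of i h => exact hinv _ h
  | mul u v hu hv => exact hmul u v hu hv

end

end Pool.Agent.Y524H
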