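import Pool.Agent.Y524H.Abs
import Pool.Agent.Y524H.Eng

set_option autoImplicit false

/-! Tables of Lickorish's twists. -/

namespace Pool.Agent.Y524H

/-- The generator with a given number; `a_i` has number `2 i` and `b_i` has number `2 i + 1`. -/
def genOf (j : ℕ) : Gen := (⟨(j % 12) / 2, by omega⟩, decide (j % 2 = 1))

/-- The generators of the surface group. -/
def vv (j : ℕ) : Pi1 := PresentedGroup.of (genOf j)

/-- The generators of the free group. -/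
def fv (j : ℕ) : FreeGroup Gen := FreeGroup.of (genOf j)

theorem genOf_mod (j : ℕ) : genOf (j % 12) = genOf j := by
  unfold genOf
  congr 1
  · ext; simp
  · congr 1
    have : j % 12 % 2 = j % 2 := by omega
    rw [this]

theorem vv_mod (j : ℕ) : vv (j % 12) = vv j := by unfold vv; rw [genOf_mod]

theorem fv_mod (j : ℕ) : fv (j % 12) = fv j := by unfold fv; rw [genOf_mod]

theorem den_vv (w : List ℕ) : den vv w = PresentedGroup.mk {zeta 6} (den fv w) := by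
  induction w with
  | nil => simp [den]
  | cons n w ih =>
    rw [den, den, map_mul, ih]
    congr 1
    unfold dl
    split_ifs
    · rfl
    · rw [map_inv]; rfl

theorem vv_gen : Subgroup.closure (Set.range vv) = ⊤ := by
  rw [eq_top_iff, ← PresentedGroup.closure_range_of]
  apply Subgroup.closure_mono
  rintro _ ⟨⟨i, e⟩, rfl⟩
  refine ⟨2 * i.val + (if e then 1 else 0), ?_⟩
  have hi := i.2
  unfold vv genOf
  congr 1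
  cases e
  · refine Prod.ext (Fin.ext ?_) ?_
    · simp; omega
    · simp
  · refine Prod.ext (Fin.ext ?_) ?_
    · simp; omega
    · simp

/-- The table of a Lickorish twist or its inverse. -/
def tabL : Lick × Bool → List (List ℕ)
  | (.inl i, e) => idT.set (2 * i.val + 1) [4 * i.val + 2, if e then 4 * i.val else 4 * i.val + 1]
  | (.inr (.inl i), e) => idT.set (2 * i.val) [4 * i.val, if e then 4 * i.val + 3 else 4 * i.val + 2]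
  | (.inr (.inr i), true) =>
      ((idT.set (2 * i.val + 1) [4 * i.val + 5, 4 * i.val + 2, 4 * i.val]).set (2 * i.val + 2)
        [4 * i.val + 5, 4 * i.val + 2, 4 * i.val, 4 * i.val + 3, 4 * i.val + 4, 4 * i.val + 2,
          4 * i.val + 1, 4 * i.val + 3, 4 * i.val + 4]).set (2 * i.val + 3)
        [4 * i.val + 6, 4 * i.val + 2, 4 * i.val + 1, 4 * i.val + 3, 4 * i.val + 4]
  | (.inr (.inr i), false) =>
      ((idT.set (2 * i.val + 1) [4 * i.val + 2, 4 * i.val + 1, 4 * i.val + 3, 4 * i.val + 4,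
        4 * i.val + 2]).set (2 * i.val + 2)
        [4 * i.val + 2, 4 * i.val + 1, 4 * i.val + 3, 4 * i.val + 4, 4 * i.val + 2,
          4 * i.val, 4 * i.val + 3]).set (2 * i.val + 3)
        [4 * i.val + 6, 4 * i.val + 5, 4 * i.val + 2, 4 * i.val, 4 * i.val + 3]

theorem tabL_ok : ∀ l : Lick, ∀ e : Bool, ∀ j : Fin 12,
    twistImage l e (genOf j) = den fv ((tabL (l, e)).getD j []) := by
  decide +kernel

/-- The table of a separating twist or its inverse. -/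
def tabS (k : Fin 4) : List (List ℕ) :=
  let z := (List.range k).flatMap fun i => [4 * i, 4 * i + 2, 4 * i + 1, 4 * i + 3]
  idT.mapIdx fun j w => if j / 2 < k.val then app (invW z) (app w z) else w

theorem tabS_ok : ∀ k : Fin 4, ∀ j : Fin 12,
    sepImage k true (genOf j) = den fv ((tabS k).getD j []) := by
  decide +kernel

theorem twist_isTab (l : Lick) : IsTab vv (twist l) (tabL (l, true)) := by
  intro j
  have h := tabL_ok l true ⟨j % 12, Nat.mod_lt _ (by norm_num)⟩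
  simp only [genOf_mod] at h
  rw [den_vv, ← h]
  exact mkAut_apply _ _ _ _ _ _ _

theorem twist_inv_isTab (l : Lick) : IsTab vv ((twist l)⁻¹ : MulAut Pi1) (tabL (l, false)) := by
  intro j
  have h := tabL_ok l false ⟨j % 12, Nat.mod_lt _ (by norm_num)⟩
  simp only [genOf_mod] at h
  rw [den_vv, ← h]
  exact mkAut_apply (twistImage l false) (twistImage l true) (twist_ok l false).1
    (twist_ok l true).1 (twist_ok l false).2 (twist_ok l true).2 _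

theorem sep_isTab (k : Fin 4) : IsTab vv (sepTwist k) (tabS k) := by
  intro j
  have h := tabS_ok k ⟨j % 12, Nat.mod_lt _ (by norm_num)⟩
  simp only [genOf_mod] at h
  rw [den_vv, ← h]
  exact mkAut_apply _ _ _ _ _ _ _

theorem letter_isTab (l : Lick × Bool) :
    IsTab vv (if l.2 then twist l.1 else (twist l.1)⁻¹ : MulAut Pi1) (tabL l) := by
  obtain ⟨l, e⟩ := l
  cases e
  · exact twist_inv_isTab l
  · exact twist_isTab l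

/-- The table of a word. -/
def tabW : Word → List (List ℕ)
  | [] => idT
  | l :: w => comp (tabL l) (tabW w)

theorem ev_isTab (w : Word) : IsTab vv (ev w) (tabW w) := by
  induction w with
  | nil => exact idT_isTab vv_mod
  | cons l w ih =>
    have : ev (l :: w) = (if l.2 then twist l.1 else (twist l.1)⁻¹) * ev w := by
      simp [ev]
    rw [this]
    exact (letter_isTab l).comp ih

theorem ev_append (u w : Word) : ev (u ++ w) = ev u * ev w := by simp [ev]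

/-- The inverse of a word. -/
def invWd (w : Word) : Word := (w.map fun l => (l.1, !l.2)).reverse

theorem ev_invWd (w : Word) : ev (invWd w) = (ev w)⁻¹ := by
  induction w with
  | nil => simp [invWd, ev]
  | cons l w ih =>
    have h1 : invWd (l :: w) = invWd w ++ [(l.1, !l.2)] := by simp [invWd]
    have h2 : ev (l :: w) = (if l.2 then twist l.1 else (twist l.1)⁻¹) * ev w := by
      simp [ev]
    rw [h1, ev_append, ih, h2, mul_inv_rev]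
    congr 1
    obtain ⟨l, e⟩ := l
    cases e <;> simp [ev]

/-- Two words with the same table have the same value. -/
theorem ev_eq {u w : Word} (h : tabW u = tabW w) : ev u = ev w :=
  (ev_isTab u).ext vv_gen (h ▸ ev_isTab w)

/-- Letters. -/
abbrev lA (i : Fin 6) (e : Bool := true) : Lick × Bool := (.inl i, e)
/-- Letters. -/
abbrev lB (i : Fin 6) (e : Bool := true) : Lick × Bool := (.inr (.inl i), e)
/-- Letters. -/
abbrev lC (i : Fin 5) (e : Bool := true) : Lick × Bool := (.inr (.inr i), e)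

/-- A mapping class. -/
def f1w : Word := [lB 3 false, lC 0, lB 1, lC 1, lB 2, lC 2, lA 2, lB 2, lC 1, lB 1, lC 0, lB 0]
/-- A mapping class. -/
def f0w : Word := [lA 0 false, lA 3 false] ++ f1w
/-- A mapping class. -/
def f2w : Word := [lB 0 false, lB 3 false, lA 1 false, lA 4 false, lB 1 false, lB 4 false,
  lC 0, lC 3, lB 0, lB 3, lA 0, lA 3] ++ f1w
/-- A mapping class. -/
def f3w : Word := [lA 1, lA 4] ++ f2w
/-- A mapping class. -/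
def f4w : Word := [lB 1 false, lB 4 false, lA 2 false, lA 5 false, lB 2 false, lB 5 false,
  lC 1, lC 4, lB 1, lB 4, lA 1, lA 4] ++ f3w
/-- A mapping class. -/
def f5w : Word := [lA 2, lA 5] ++ f4w
/-- A mapping class. -/
def f6w : Word := [lB 2, lB 5] ++ f5w

/-- The table of the twist number 0. -/
def tT0 : List (List ℕ) :=
   [[0, 3, 4, 6, 5, 7, 8, 10, 9, 11, 12, 14, 13],
    [12, 15, 13, 10, 8, 11, 9, 6, 4, 7, 5, 2, 4, 6, 5, 7, 8, 10, 9, 11, 12, 14, 13],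
    [12, 15, 13, 10, 8, 11, 9, 6, 4, 7, 5, 2, 4, 3, 4, 6, 5, 7, 8, 10, 9, 11, 12, 14, 13],
    [12, 15, 13, 10, 8, 11, 9, 6, 4, 7, 5, 2, 6, 3, 4, 6, 5, 7, 8, 10, 9, 11, 12, 14, 13],
    [12, 15, 13, 10, 8, 11, 9, 6, 4, 7, 5, 2, 8, 3, 4, 6, 5, 7, 8, 10, 9, 11, 12, 14, 13],
    [12, 15, 13, 10, 8, 11, 9, 6, 4, 7, 5, 2, 10, 3, 4, 6, 5, 7, 8, 10, 9, 11, 12, 14, 13],
    [12, 15, 13, 10, 8, 11, 9, 6, 4, 7, 5, 2, 12],
    [14],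
    [16],
    [18],
    [20],
    [22]]

/-- The table of the twist number 1. -/
def tT1 : List (List ℕ) :=
   [[3, 4, 6, 5, 7, 8, 10, 9, 11, 12, 14],
    [15, 13, 10, 8, 11, 9, 6, 4, 7, 5, 2, 0, 2],
    [15, 13, 10, 8, 11, 9, 6, 4, 7, 5, 2, 0, 4, 1, 3, 4, 6, 5, 7, 8, 10, 9, 11, 12, 14],
    [15, 13, 10, 8, 11, 9, 6, 4, 7, 5, 2, 0, 6, 1, 3, 4, 6, 5, 7, 8, 10, 9, 11, 12, 14],
    [15, 13, 10, 8, 11, 9, 6, 4, 7, 5, 2, 0, 8, 1, 3, 4, 6, 5, 7, 8, 10, 9, 11, 12, 14],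
    [15, 13, 10, 8, 11, 9, 6, 4, 7, 5, 2, 0, 10, 1, 3, 4, 6, 5, 7, 8, 10, 9, 11, 12, 14],
    [15, 13, 10, 8, 11, 9, 6, 4, 7, 5, 2, 0, 12],
    [14, 1, 3, 4, 6, 5, 7, 8, 10, 9, 11, 12, 14],
    [16],
    [18],
    [20],
    [22]]

/-- The table of the twist number 2. -/
def tT2 : List (List ℕ) :=
   [[0],
    [4, 6, 5, 16, 19, 17, 13, 10, 8, 11, 9, 6, 4, 7, 5, 2, 0],
    [4, 4, 7, 5, 2, 1, 3, 4, 6, 5, 7, 8, 10, 9, 11, 12, 16, 18, 17],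
    [16, 19, 17, 13, 10, 8, 11, 9, 6, 4, 7, 5, 2, 0, 3, 4, 6, 5, 6, 4, 7, 5, 2, 1, 3, 4, 6, 5, 7, 8, 10, 9, 11, 12, 16, 18, 17],
    [16, 19, 17, 13, 10, 8, 11, 9, 6, 4, 7, 5, 2, 0, 3, 4, 6, 5, 8, 4, 7, 5, 2, 1, 3, 4, 6, 5, 7, 8, 10, 9, 11, 12, 16, 18, 17],
    [16, 19, 17, 13, 10, 8, 11, 9, 6, 4, 7, 5, 2, 0, 3, 4, 6, 5, 10, 4, 7, 5, 2, 1, 3, 4, 6, 5, 7, 8, 10, 9, 11, 12, 16, 18, 17],
    [16, 19, 17, 13, 10, 8, 11, 9, 6, 4, 7, 5, 2, 0, 3, 4, 6, 5, 12, 4, 7, 5, 2, 1, 3, 4, 6, 5, 7, 8, 10, 9, 11, 12, 16, 18, 17],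
    [16, 19, 17, 13, 10, 8, 11, 9, 6, 4, 7, 5, 2, 0, 3, 4, 6, 5, 16, 18, 17, 4, 7, 5, 2, 1, 3, 4, 6, 5, 7, 8, 10, 9, 11, 12, 14, 4, 7, 5, 2, 1, 3, 4, 6, 5, 7, 8, 10, 9, 11, 12, 16, 18, 17],
    [16, 19, 17, 13, 10, 8, 11, 9, 6, 4, 7, 5, 2, 0, 3, 4, 6, 5, 16],
    [18],
    [20],
    [22]]

/-- The table of the twist number 3. -/
def tT3 : List (List ℕ) :=
   [[0],
    [4, 6, 19, 17, 13, 10, 8, 11, 9, 6, 4, 7, 5, 2, 0],
    [4, 7, 5, 2, 1, 3, 4, 6, 5, 7, 8, 10, 9, 11, 12, 16, 18],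
    [19, 17, 13, 10, 8, 11, 9, 6, 4, 7, 5, 2, 0, 3, 4, 6, 6],
    [19, 17, 13, 10, 8, 11, 9, 6, 4, 7, 5, 2, 0, 3, 4, 6, 8, 7, 5, 2, 1, 3, 4, 6, 5, 7, 8, 10, 9, 11, 12, 16, 18],
    [19, 17, 13, 10, 8, 11, 9, 6, 4, 7, 5, 2, 0, 3, 4, 6, 10, 7, 5, 2, 1, 3, 4, 6, 5, 7, 8, 10, 9, 11, 12, 16, 18],
    [19, 17, 13, 10, 8, 11, 9, 6, 4, 7, 5, 2, 0, 3, 4, 6, 12, 7, 5, 2, 1, 3, 4, 6, 5, 7, 8, 10, 9, 11, 12, 16, 18],
    [19, 17, 13, 10, 8, 11, 9, 6, 4, 7, 5, 2, 0, 3, 4, 6, 16, 18, 7, 5, 2, 1, 3, 4, 6, 5, 7, 8, 10, 9, 11, 12, 14, 7, 5, 2, 1, 3, 4, 6, 5, 7, 8, 10, 9, 11, 12, 16, 18],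
    [19, 17, 13, 10, 8, 11, 9, 6, 4, 7, 5, 2, 0, 3, 4, 6, 16],
    [18, 7, 5, 2, 1, 3, 4, 6, 5, 7, 8, 10, 9, 11, 12, 16, 18],
    [20],
    [22]]

/-- The table of the twist number 4. -/
def tT4 : List (List ℕ) :=
   [[0],
    [4, 8, 10, 9, 20, 23, 21, 17, 13, 10, 8, 11, 9, 6, 4, 7, 5, 2, 0],
    [4],
    [8, 10, 9, 20, 23, 21, 17, 13, 10, 8, 11, 9, 6, 4, 7, 5, 2, 0, 3, 4, 6],
    [8, 8, 11, 9, 5, 2, 1, 3, 4, 6, 5, 7, 8, 10, 9, 11, 12, 16, 20, 22, 21],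
    [20, 23, 21, 17, 13, 10, 8, 11, 9, 6, 4, 7, 5, 2, 0, 3, 4, 8, 10, 9, 10, 8, 11, 9, 5, 2, 1, 3, 4, 6, 5, 7, 8, 10, 9, 11, 12, 16, 20, 22, 21],
    [20, 23, 21, 17, 13, 10, 8, 11, 9, 6, 4, 7, 5, 2, 0, 3, 4, 8, 10, 9, 12, 8, 11, 9, 5, 2, 1, 3, 4, 6, 5, 7, 8, 10, 9, 11, 12, 16, 20, 22, 21],
    [20, 23, 21, 17, 13, 10, 8, 11, 9, 6, 4, 7, 5, 2, 0, 3, 4, 8, 10, 9, 16, 20, 22, 21, 8, 11, 9, 5, 2, 1, 3, 4, 6, 5, 7, 8, 10, 9, 11, 12, 14, 8, 11, 9, 5, 2, 1, 3, 4, 6, 5, 7, 8, 10, 9, 11, 12, 16, 20, 22, 21],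
    [20, 23, 21, 17, 13, 10, 8, 11, 9, 6, 4, 7, 5, 2, 0, 3, 4, 8, 10, 9, 16, 8, 11, 9, 5, 2, 1, 3, 4, 6, 5, 7, 8, 10, 9, 11, 12, 16, 20, 22, 21],
    [20, 23, 21, 17, 13, 10, 8, 11, 9, 6, 4, 7, 5, 2, 0, 3, 4, 8, 10, 9, 20, 22, 21, 8, 11, 9, 5, 2, 1, 3, 4, 6, 5, 7, 8, 10, 9, 11, 12, 16, 18, 8, 11, 9, 5, 2, 1, 3, 4, 6, 5, 7, 8, 10, 9, 11, 12, 16, 20, 22, 21],
    [20, 23, 21, 17, 13, 10, 8, 11, 9, 6, 4, 7, 5, 2, 0, 3, 4, 8, 10, 9, 20],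
    [22]]

/-- The table of the twist number 5. -/
def tT5 : List (List ℕ) :=
   [[0],
    [4, 8, 10, 23, 21, 17, 13, 10, 8, 11, 9, 6, 4, 7, 5, 2, 0],
    [4],
    [8, 10, 23, 21, 17, 13, 10, 8, 11, 9, 6, 4, 7, 5, 2, 0, 3, 4, 6],
    [8, 11, 9, 5, 2, 1, 3, 4, 6, 5, 7, 8, 10, 9, 11, 12, 16, 20, 22],
    [23, 21, 17, 13, 10, 8, 11, 9, 6, 4, 7, 5, 2, 0, 3, 4, 8, 10, 10],
    [23, 21, 17, 13, 10, 8, 11, 9, 6, 4, 7, 5, 2, 0, 3, 4, 8, 10, 12, 11, 9, 5, 2, 1, 3, 4, 6, 5, 7, 8, 10, 9, 11, 12, 16, 20, 22],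
    [23, 21, 17, 13, 10, 8, 11, 9, 6, 4, 7, 5, 2, 0, 3, 4, 8, 10, 16, 20, 22, 11, 9, 5, 2, 1, 3, 4, 6, 5, 7, 8, 10, 9, 11, 12, 14, 11, 9, 5, 2, 1, 3, 4, 6, 5, 7, 8, 10, 9, 11, 12, 16, 20, 22],
    [23, 21, 17, 13, 10, 8, 11, 9, 6, 4, 7, 5, 2, 0, 3, 4, 8, 10, 16, 11, 9, 5, 2, 1, 3, 4, 6, 5, 7, 8, 10, 9, 11, 12, 16, 20, 22],
    [23, 21, 17, 13, 10, 8, 11, 9, 6, 4, 7, 5, 2, 0, 3, 4, 8, 10, 20, 22, 11, 9, 5, 2, 1, 3, 4, 6, 5, 7, 8, 10, 9, 11, 12, 16, 18, 11, 9, 5, 2, 1, 3, 4, 6, 5, 7, 8, 10, 9, 11, 12, 16, 20, 22],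
    [23, 21, 17, 13, 10, 8, 11, 9, 6, 4, 7, 5, 2, 0, 3, 4, 8, 10, 20],
    [22, 11, 9, 5, 2, 1, 3, 4, 6, 5, 7, 8, 10, 9, 11, 12, 16, 20, 22]]

/-- The table of the twist number 6. -/
def tT6 : List (List ℕ) :=
   [[0],
    [4, 8, 21, 17, 13, 10, 8, 11, 9, 6, 4, 7, 5, 2, 0],
    [4],
    [8, 21, 17, 13, 10, 8, 11, 9, 6, 4, 7, 5, 2, 0, 3, 4, 6],
    [8],
    [21, 17, 13, 10, 8, 11, 9, 6, 4, 7, 5, 2, 0, 3, 4, 8, 10],
    [21, 17, 13, 10, 8, 11, 9, 6, 4, 7, 5, 2, 0, 3, 4, 8, 12, 9, 5, 2, 1, 3, 4, 6, 5, 7, 8, 10, 9, 11, 12, 16, 20],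
    [21, 17, 13, 10, 8, 11, 9, 6, 4, 7, 5, 2, 0, 3, 4, 8, 16, 20, 9, 5, 2, 1, 3, 4, 6, 5, 7, 8, 10, 9, 11, 12, 14, 9, 5, 2, 1, 3, 4, 6, 5, 7, 8, 10, 9, 11, 12, 16, 20],
    [21, 17, 13, 10, 8, 11, 9, 6, 4, 7, 5, 2, 0, 3, 4, 8, 16, 9, 5, 2, 1, 3, 4, 6, 5, 7, 8, 10, 9, 11, 12, 16, 20],
    [21, 17, 13, 10, 8, 11, 9, 6, 4, 7, 5, 2, 0, 3, 4, 8, 20, 9, 5, 2, 1, 3, 4, 6, 5, 7, 8, 10, 9, 11, 12, 16, 18, 9, 5, 2, 1, 3, 4, 6, 5, 7, 8, 10, 9, 11, 12, 16, 20],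
    [21, 17, 13, 10, 8, 11, 9, 6, 4, 7, 5, 2, 0, 3, 4, 8, 20, 9, 5, 2, 1, 3, 4, 6, 5, 7, 8, 10, 9, 11, 12, 16, 20],
    [22, 9, 5, 2, 1, 3, 4, 6, 5, 7, 8, 10, 9, 11, 12, 16, 20]]

/-- The table of the product of the twists. -/
def tP : List (List ℕ) :=
   [[12],
    [14],
    [16],
    [18],
    [20],
    [22],
    [22, 20, 23, 21, 18, 16, 19, 17, 14, 12, 15, 13, 0, 12, 14, 13, 15, 16, 18, 17, 19, 20, 22, 21, 23],
    [22, 20, 23, 21, 18, 16, 19, 17, 14, 12, 15, 13, 2, 12, 14, 13, 15, 16, 18, 17, 19, 20, 22, 21, 23],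
    [22, 20, 23, 21, 18, 16, 19, 17, 14, 12, 15, 13, 4, 12, 14, 13, 15, 16, 18, 17, 19, 20, 22, 21, 23],
    [22, 20, 23, 21, 18, 16, 19, 17, 14, 12, 15, 13, 6, 12, 14, 13, 15, 16, 18, 17, 19, 20, 22, 21, 23],
    [22, 20, 23, 21, 18, 16, 19, 17, 14, 12, 15, 13, 8, 12, 14, 13, 15, 16, 18, 17, 19, 20, 22, 21, 23],
    [22, 20, 23, 21, 18, 16, 19, 17, 14, 12, 15, 13, 10, 12, 14, 13, 15, 16, 18, 17, 19, 20, 22, 21, 23]]

theorem tT0_ok : tabW (f0w ++ [lA 0] ++ invWd f0w) = tT0 := by decide +kernel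
theorem tT1_ok : tabW (f1w ++ [lA 0] ++ invWd f1w) = tT1 := by decide +kernel
theorem tT2_ok : tabW (f2w ++ [lA 0] ++ invWd f2w) = tT2 := by decide +kernel
theorem tT3_ok : tabW (f3w ++ [lA 0] ++ invWd f3w) = tT3 := by decide +kernel
theorem tT4_ok : tabW (f4w ++ [lA 0] ++ invWd f4w) = tT4 := by decide +kernel
theorem tT5_ok : tabW (f5w ++ [lA 0] ++ invWd f5w) = tT5 := by decide +kernel
theorem tT6_ok : tabW (f6w ++ [lA 0] ++ invWd f6w) = tT6 := by decide +kernel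

end Pool.Agent.Y524H
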