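import Pool.Agent.Y524H.Tab

set_option autoImplicit false

/-! The positive relation and the mapping classes used in the proof. -/

namespace Pool.Agent.Y524H

/-- The swap of the two halves. -/
def swapT : List (List ℕ) := (List.range 12).map fun j => [2 * ((j + 6) % 12)]

/-- The word of the boundary of the right half. -/
def zRw : List ℕ := [12, 14, 13, 15, 16, 18, 17, 19, 20, 22, 21, 23]

/-- The product of the twists of the relation. -/
def Pm : MulAut Pi1 :=
  ev (f0w ++ [lA 0] ++ invWd f0w) * (ev (f1w ++ [lA 0] ++ invWd f1w) *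
    (ev (f2w ++ [lA 0] ++ invWd f2w) * (ev (f3w ++ [lA 0] ++ invWd f3w) *
      (ev (f4w ++ [lA 0] ++ invWd f4w) * (ev (f5w ++ [lA 0] ++ invWd f5w) *
        (ev (f6w ++ [lA 0] ++ invWd f6w) * sepTwist 3))))))

/-- The involution. -/
def sg : MulAut Pi1 := MulAut.conj (den vv zRw) * Pm

theorem sg_isTab : IsTab vv sg swapT := by
  have h : comp (conjT zRw) (comp tT0 (comp tT1 (comp tT2 (comp tT3 (comp tT4 (comp tT5
      (comp tT6 (tabS 3)))))))) = swapT := by decide +kernel
  rw [← h]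
  refine (conjT_isTab vv_mod zRw).comp ?_
  refine IsTab.comp (tT0_ok ▸ ev_isTab _) ?_
  refine IsTab.comp (tT1_ok ▸ ev_isTab _) ?_
  refine IsTab.comp (tT2_ok ▸ ev_isTab _) ?_
  refine IsTab.comp (tT3_ok ▸ ev_isTab _) ?_
  refine IsTab.comp (tT4_ok ▸ ev_isTab _) ?_
  refine IsTab.comp (tT5_ok ▸ ev_isTab _) ?_
  exact IsTab.comp (tT6_ok ▸ ev_isTab _) (sep_isTab 3)

theorem sg_sq : sg * sg = 1 := by
  have h : comp swapT swapT = idT := by decide +kernel
  exact (sg_isTab.comp sg_isTab).ext vv_gen (h ▸ idT_isTab vv_mod)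

/-- Curves in the left half. -/
def Lset : List Lick := [.inl 0, .inl 1, .inl 2, .inr (.inl 0), .inr (.inl 1), .inr (.inl 2),
  .inr (.inr 0), .inr (.inr 1)]

/-- The corresponding curves in the right half. -/
def bar : Lick → Lick
  | .inl i => .inl (i + 3)
  | .inr (.inl i) => .inr (.inl (i + 3))
  | .inr (.inr i) => .inr (.inr (i + 3))

theorem ev_single (l : Lick) : ev [(l, true)] = twist l := by simp [ev]

theorem comm_bar : ∀ l ∈ Lset, ∀ l' ∈ Lset,
    twist l * twist (bar l') = twist (bar l') * twist l := by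
  have h : ∀ l ∈ Lset, ∀ l' ∈ Lset,
      tabW [(l, true), (bar l', true)] = tabW [(bar l', true), (l, true)] := by decide +kernel
  intro l hl l' hl'
  have := ev_eq (h l hl l' hl')
  simpa [ev] using this

theorem sg_bar : ∀ l ∈ Lset, sg * twist l = twist (bar l) * sg := by
  have h : ∀ l ∈ Lset, comp swapT (tabL (l, true)) = comp (tabL (bar l, true)) swapT := by
    decide +kernel
  intro l hl
  have h1 := sg_isTab.comp (twist_isTab l)
  have h2 := (twist_isTab (bar l)).comp sg_isTab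
  exact h1.ext vv_gen ((h l hl) ▸ h2)

/-- The table of a mapping class. -/
def tG0 : List (List ℕ) :=
   [[0, 3, 6, 2],
    [3, 7, 2, 6, 2],
    [3, 7, 2, 6, 4, 2],
    [3, 6, 2],
    [8],
    [10],
    [12],
    [14],
    [16],
    [18],
    [20],
    [22]]

/-- The table of a mapping class. -/
def tG1 : List (List ℕ) :=
   [[0],
    [2],
    [4, 7, 10, 6],
    [7, 11, 6, 10, 6],
    [7, 11, 6, 10, 8, 6],
    [7, 10, 6],
    [12],
    [14],
    [16],
    [18],
    [20],
    [22]]

/-- The table of a mapping class. -/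
def tD0 : List (List ℕ) :=
   [[3, 4, 7, 5, 2, 0, 3, 6, 2],
    [3, 7, 2, 6, 2],
    [3, 7, 2, 6, 4, 7, 5, 2, 0, 3, 1, 3, 4, 6, 2],
    [3, 6, 2],
    [8],
    [10],
    [12],
    [14],
    [16],
    [18],
    [20],
    [22]]

/-- The table of a mapping class. -/
def tD1 : List (List ℕ) :=
   [[0],
    [2],
    [7, 8, 11, 9, 6, 4, 7, 10, 6],
    [7, 11, 6, 10, 6],
    [7, 11, 6, 10, 8, 11, 9, 6, 4, 7, 5, 7, 8, 10, 6],
    [7, 10, 6],
    [12],
    [14],
    [16],
    [18],
    [20],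
    [22]]

/-- A mapping class. -/
def gA23 : Word := [lA 0, lC 0 false, lB 1 false, lA 1 false]
/-- A mapping class. -/
def gA12 : Word := [lA 1, lC 1 false, lB 2 false, lA 2 false]
/-- A mapping class. -/
def gB23 : Word := [lC 0 false, lB 0 false, lA 1, lA 0 false]
/-- A mapping class. -/
def gB12 : Word := [lC 1 false, lB 1 false, lA 2, lA 1 false]

/-- The pushing maps. -/
def Gi : Fin 2 → Word
  | 0 => invWd gA23 ++ [lB 0 false] ++ gA23 ++ [lB 1, lB 0]
  | 1 => invWd gA12 ++ [lB 1 false] ++ gA12 ++ [lB 2, lB 1]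

/-- The bounding pair maps. -/
def Di : Fin 2 → Word
  | 0 => invWd gA23 ++ [lB 0 false] ++ gA23 ++ (invWd gB23 ++ [lB 1] ++ gB23)
  | 1 => invWd gA12 ++ [lB 1 false] ++ gA12 ++ (invWd gB12 ++ [lB 2] ++ gB12)

theorem tG0_ok : tabW (Gi 0) = tG0 := by decide +kernel
theorem tG1_ok : tabW (Gi 1) = tG1 := by decide +kernel
theorem tD0_ok : tabW (Di 0) = tD0 := by decide +kernel
theorem tD1_ok : tabW (Di 1) = tD1 := by decide +kernel

theorem DG : ∀ i k : Fin 2, ev (Di i) * ev (Gi k) * (ev (Di i))⁻¹ =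
    ev (Gi i) * ev (Gi k) * (ev (Gi i))⁻¹ := by
  have h : ∀ i k : Fin 2, tabW (Di i ++ Gi k ++ invWd (Di i)) =
      tabW (Gi i ++ Gi k ++ invWd (Gi i)) := by decide +kernel
  intro i k
  have := ev_eq (h i k)
  simpa only [ev_append, ev_invWd] using this

theorem XG : ∀ k : Fin 2, twist (.inr (.inl 1)) * ev (Gi k) = ev (Gi k) * twist (.inr (.inl 1)) := by
  have h : ∀ k : Fin 2, tabW ([lB 1] ++ Gi k) = tabW (Gi k ++ [lB 1]) := by decide +kernel
  intro k
  have := ev_eq (h k)
  rw [ev_append, ev_append] at this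
  rwa [ev_single] at this

end Pool.Agent.Y524H
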